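import Pool.Agent.Helper92.RT.Num

/-!
# The machine on numbers computes what the machine on words computes
-/

namespace Pool.Agent.Helper92.RT

open Pool.Agent.Helper65.LinSpace Pool.Agent.Helper78.Mpc Pool.Agent.Helper28.Ram Finset

section

variable {P : Prm} {f₀ : ℕ → ℕ} {X : ℕ}

theorem st_zero (x Z : ℕ) : P.st x 0 Z = capN P.M x := rfl

theorem st_succ (x i Z : ℕ) :
    P.st x (i + 1) Z = P.stp (P.st x i Z) (dig (2 ^ (P.D + 1)) Z i) := rfl

/-- The state depends only on the words which are noted before. -/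
theorem st_congr {x i Z Z' : ℕ}
    (h : ∀ t < i, dig (2 ^ (P.D + 1)) Z t = dig (2 ^ (P.D + 1)) Z' t) :
    P.st x i Z = P.st x i Z' := by
  induction i with
  | zero => rw [st_zero, st_zero]
  | succ i ih =>
    rw [st_succ, st_succ, ih fun t ht => h t (by omega), h i (by omega)]

theorem nt_lt (z v : ℕ) : P.nt z v < 2 ^ (P.D + 1) := by
  unfold Prm.nt ifz
  split_ifs
  · exact Nat.pos_of_ne_zero (by positivity)
  · exact capN_lt _ _

theorem rs_lt (z : ℕ) : P.rs z < 2 ^ (P.V + 1) := by
  unfold Prm.rs ifz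
  split_ifs
  · positivity
  · exact capN_lt _ _

theorem Zt_succ (f : ℕ → ℕ) (x i : ℕ) : (P.mach f₀ X).Zt f x (i + 1) =
    (P.mach f₀ X).Zt f x i + 2 ^ ((P.D + 1) * i) * P.nt (P.st x i ((P.mach f₀ X).Zt f x i))
      (f (capN P.S (P.fA (P.st x i ((P.mach f₀ X).Zt f x i))))) := rfl

theorem Zt_lt (f : ℕ → ℕ) (x i : ℕ) : (P.mach f₀ X).Zt f x i < 2 ^ ((P.D + 1) * i) := by
  induction i with
  | zero => exact Nat.one_pos
  | succ i ih =>
    rw [Zt_succ]
    have h := nt_lt (P := P) (P.st x i ((P.mach f₀ X).Zt f x i))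
      (f (capN P.S (P.fA (P.st x i ((P.mach f₀ X).Zt f x i)))))
    generalize P.nt (P.st x i ((P.mach f₀ X).Zt f x i))
      (f (capN P.S (P.fA (P.st x i ((P.mach f₀ X).Zt f x i))))) = u at h
    generalize (P.mach f₀ X).Zt f x i = Z at ih
    have e : 2 ^ ((P.D + 1) * (i + 1)) = 2 ^ ((P.D + 1) * i) * 2 ^ (P.D + 1) := by
      rw [← pow_add, Nat.mul_succ]
    rw [e]
    calc Z + 2 ^ ((P.D + 1) * i) * u < 2 ^ ((P.D + 1) * i) + 2 ^ ((P.D + 1) * i) * u := by omega
      _ = 2 ^ ((P.D + 1) * i) * (u + 1) := by ring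
      _ ≤ _ := Nat.mul_le_mul_left _ h

theorem dig_Zt (f : ℕ → ℕ) (x : ℕ) {i t : ℕ} (h : t < i) :
    dig (2 ^ (P.D + 1)) ((P.mach f₀ X).Zt f x i) t = P.nt (P.st x t ((P.mach f₀ X).Zt f x t))
      (f (capN P.S (P.fA (P.st x t ((P.mach f₀ X).Zt f x t))))) := by
  induction i with
  | zero => omega
  | succ i ih =>
    have hlt := Zt_lt (P := P) (f₀ := f₀) (X := X) f x i
    have hu := nt_lt (P := P) (P.st x i ((P.mach f₀ X).Zt f x i))
      (f (capN P.S (P.fA (P.st x i ((P.mach f₀ X).Zt f x i)))))
    rw [Zt_succ]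
    rcases Nat.lt_or_ge t i with h1 | h1
    · rw [← ih h1]
      generalize P.nt (P.st x i ((P.mach f₀ X).Zt f x i))
        (f (capN P.S (P.fA (P.st x i ((P.mach f₀ X).Zt f x i))))) = u
      generalize (P.mach f₀ X).Zt f x i = Z
      unfold dig
      obtain ⟨d, hd⟩ : ∃ d, i = t + (d + 1) := ⟨i - t - 1, by omega⟩
      have e : 2 ^ ((P.D + 1) * i) * u =
          (2 ^ (P.D + 1)) ^ t * ((2 ^ (P.D + 1)) * ((2 ^ (P.D + 1)) ^ d * u)) := by
        have : 2 ^ ((P.D + 1) * i) = (2 ^ (P.D + 1)) ^ t * (2 ^ (P.D + 1) * (2 ^ (P.D + 1)) ^ d) := by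
          rw [pow_mul, hd, pow_add, pow_succ' _ d]
        rw [this]
        ring
      rw [e, Nat.add_mul_div_left _ _ (by positivity), Nat.add_mul_mod_self_left]
    · have h2 : t = i := by omega
      subst h2
      generalize P.nt (P.st x t ((P.mach f₀ X).Zt f x t))
        (f (capN P.S (P.fA (P.st x t ((P.mach f₀ X).Zt f x t))))) = u at hu ⊢
      generalize (P.mach f₀ X).Zt f x t = Z at hlt ⊢
      unfold dig
      rw [pow_mul] at hlt ⊢
      rw [Nat.add_mul_div_left _ _ (by positivity), Nat.div_eq_of_lt hlt, zero_add,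
        Nat.mod_eq_of_lt hu]

/-- The state after `i` reads does not change if more words are noted. -/
theorem st_Zt (f : ℕ → ℕ) (x : ℕ) {i j : ℕ} (h : i ≤ j) :
    P.st x i ((P.mach f₀ X).Zt f x j) = P.st x i ((P.mach f₀ X).Zt f x i) :=
  st_congr fun t ht => by rw [dig_Zt f x (by omega), dig_Zt f x ht]

/-- One step of the state. -/
theorem st_step (f : ℕ → ℕ) (x i : ℕ) : P.st x (i + 1) ((P.mach f₀ X).Zt f x (i + 1)) =
    P.stp (P.st x i ((P.mach f₀ X).Zt f x i)) (P.nt (P.st x i ((P.mach f₀ X).Zt f x i))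
      (f (capN P.S (P.fA (P.st x i ((P.mach f₀ X).Zt f x i)))))) := by
  rw [st_succ, st_Zt f x (Nat.le_succ i), dig_Zt f x (Nat.lt_succ_self i)]

/-- The state is kept when the processor has halted. -/
theorem stp_halt {z e : ℕ} (h : P.fA z = 1) : P.stp z e = z := by
  unfold Prm.stp
  rw [h]
  rfl

theorem stp_nhalt {z e : ℕ} (h : P.fA z ≠ 1) : P.stp z e = capN P.M (P.fN z e) := by
  unfold Prm.stp eq01
  rw [if_neg h, ifz_zero]

theorem nt_zero {z v : ℕ} (h : P.fA z ≤ 1) : P.nt z v = 0 := by
  unfold Prm.nt lt01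
  rw [if_neg (by omega), ifz_zero]

theorem nt_pos {z v : ℕ} (h : 1 < P.fA z) : P.nt z v = capN P.D (P.fL z v) := by
  unfold Prm.nt lt01
  rw [if_pos h, ifz_ne one_ne_zero]

/-! ### Words -/

variable {A : PAR} {w y : List Bool} {R₀ : List Bool → List Bool}

theorem ro_false (u : List Bool) : ro (num (false :: u)) = 1 := by
  have h := num_pos u
  have e : num (false :: u) = 2 * num u := by
    show false.toNat + 2 * num u = _
    simp
  unfold ro lt01
  rw [e, if_pos (by omega)]
  omega

theorem ro_other {x : List Bool} (h : x.head? ≠ some false) : ro (num x) = 0 := by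
  rcases x with _ | ⟨b, u⟩
  · rfl
  · cases b with
    | false => exact absurd rfl h
    | true =>
      have e : num (true :: u) = 1 + 2 * num u := rfl
      unfold ro
      rw [e]
      have : 1 - (1 + 2 * num u) % 2 = 0 := by omega
      rw [this, mul_zero]

theorem ix_false (u : List Bool) : ix (num (false :: u)) = bval u := by
  have e : num (false :: u) = 2 * num u := by
    show false.toNat + 2 * num u = _
    simp
  unfold ix
  rw [e, Nat.mul_div_cancel_left _ (by norm_num), log_num,
    Pool.Agent.Helper11.Ram.num_eq_bval]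
  omega

theorem inp_false (hc : Cod A w y P) (u : List Bool) :
    P.inp (num (false :: u)) = capN P.V (num (A.init w[bval u]? y[bval u]?)) := by
  unfold Prm.inp
  rw [ix_false, hc.hx, hc.hy, letN_num, letN_num, hc.hini]

theorem inp_head (hc : Cod A w y P) {x : List Bool} (h : x.head? = some false) :
    P.inp (num x) = capN P.V (num (A.init w[bval x.tail]? y[bval x.tail]?)) ∧
      ro (num x) = 1 := by
  rcases x with _ | ⟨b, u⟩
  · exact absurd h (by simp)
  · cases b with
    | true => exact absurd h (by simp)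
    | false => exact ⟨inp_false hc u, ro_false u⟩

theorem num_eq_one_iff {x : List Bool} : num x = 1 ↔ x = [] := by
  constructor
  · exact num_eq_one
  · rintro rfl
    rfl

theorem one_lt_num {x : List Bool} (h : x ≠ []) : 1 < num x := by
  have h1 := num_pos x
  have h2 : num x ≠ 1 := fun h3 => h (num_eq_one_iff.1 h3)
  omega

/-- The invariant of a processor. -/
theorem st_inv (hc : Cod A w y P) {f : ℕ → ℕ} {R : List Bool → List Bool} (x : List Bool)
    (hf : ∀ u : List Bool, u.length ≤ P.S → f (num u) = 0 ∨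
      f (num u) = num (R u) ∧ (R u).length ≤ P.V) (i : ℕ) :
    P.st (num x) i ((P.mach f₀ X).Zt f (num x) i) = 0 ∨
    ∃ e, (∀ j < e, A.addr (A.state R x j) ≠ []) ∧
      (e = i ∨ A.addr (A.state R x e) = []) ∧ (A.state R x e).length ≤ P.M ∧
      P.st (num x) i ((P.mach f₀ X).Zt f (num x) i) = num (A.state R x e) := by
  induction i with
  | zero =>
    rw [st_zero]
    by_cases h : x.length ≤ P.M
    · exact Or.inr ⟨0, fun j hj => absurd hj (Nat.not_lt_zero j), Or.inl rfl, h, capN_num h⟩
    · left
      by_contra hne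
      exact h (Pool.Agent.Helper11.Ram.capN_num_le hne)
  | succ i ih =>
    rw [st_step]
    rcases ih with h0 | ⟨e, h1, h2, h3, h4⟩
    · left
      rw [h0, stp_nhalt (by rw [fA_zero]; norm_num), fN_zero_left, capN_zero']
    · rw [h4]
      have hAe := hc.hA _ h3
      by_cases hh : A.addr (A.state R x e) = []
      · right
        refine ⟨e, h1, Or.inr hh, h3, stp_halt ?_⟩
        rw [hAe, hh, List.length_nil, if_pos (Nat.zero_le _)]
        rfl
      · have hei : e = i := h2.resolve_right hh
        subst hei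
        by_cases ha : (A.addr (A.state R x e)).length ≤ P.S
        · rw [if_pos ha] at hAe
          have h5 := one_lt_num hh
          rw [stp_nhalt (by rw [hAe]; omega), nt_pos (by rw [hAe]; exact h5), hAe, capN_num ha]
          rcases hf _ ha with hv | ⟨hv, hvl⟩
          · left
            rw [hv, fL_zero_right, capN_zero', fN_zero_right, capN_zero']
          · rw [hv, hc.hL _ _ h3 hvl]
            by_cases hl : (A.look (sd (A.state R x e) ++ R (A.addr (A.state R x e)))).length ≤ P.D
            · rw [if_pos hl, capN_num hl, hc.hN _ _ h3 hl]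
              have es : A.next (sd (A.state R x e) ++
                  A.look (sd (A.state R x e) ++ R (A.addr (A.state R x e)))) =
                  A.state R x (e + 1) := rfl
              rw [es]
              split_ifs with hn
              · right
                refine ⟨e + 1, fun j hj => ?_, Or.inl rfl, hn, capN_num hn⟩
                rcases Nat.lt_or_ge j e with h6 | h6
                · exact h1 j h6
                · have : j = e := by omega
                  rw [this]
                  exact hh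
              · exact Or.inl (capN_zero' _)
            · left
              rw [if_neg hl, capN_zero', fN_zero_right, capN_zero']
        · left
          rw [if_neg ha] at hAe
          rw [stp_nhalt (by rw [hAe]; norm_num), nt_zero (by rw [hAe]; norm_num), fN_zero_right,
            capN_zero']

theorem res_eq (A : PAR) (R : List Bool → List Bool) (x : List Bool) {e : ℕ}
    (h1 : ∀ j < e, A.addr (A.state R x j) ≠ []) (h2 : A.addr (A.state R x e) = []) :
    A.res R x = A.out (A.state R x e) := by
  classical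
  have hex : ∃ i, A.addr (A.state R x i) = [] := ⟨e, h2⟩
  have he : Nat.find hex = e := by
    refine le_antisymm (Nat.find_min' hex h2) ?_
    by_contra hcon
    exact h1 (Nat.find hex) (by omega) (Nat.find_spec hex)
  unfold PAR.res
  rw [dif_pos hex, he]

theorem rs_num (hc : Cod A w y P) {z : List Bool} (hz : z.length ≤ P.M) (h : A.addr z = []) :
    P.rs (num z) = if (A.out z).length ≤ P.V then num (A.out z) else 0 := by
  unfold Prm.rs
  have hA := hc.hA z hz
  rw [h, List.length_nil, if_pos (Nat.zero_le _)] at hA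
  have e : eq01 (P.fA (num z)) 1 = 1 := by
    rw [hA]
    rfl
  rw [e, ifz_ne one_ne_zero, hc.hO z hz]
  split_ifs with hl
  · exact capN_num hl
  · exact capN_zero' _

/-- Soundness of the result of a processor. -/
theorem rs_sound (hc : Cod A w y P) {f : ℕ → ℕ} {R : List Bool → List Bool} (x : List Bool)
    (hf : ∀ u : List Bool, u.length ≤ P.S → f (num u) = 0 ∨
      f (num u) = num (R u) ∧ (R u).length ≤ P.V) (i : ℕ) :
    P.rs (P.st (num x) i ((P.mach f₀ X).Zt f (num x) i)) = 0 ∨
      P.rs (P.st (num x) i ((P.mach f₀ X).Zt f (num x) i)) = num (A.res R x) ∧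
        (A.res R x).length ≤ P.V := by
  rcases st_inv hc x hf i with h0 | ⟨e, h1, h2, h3, h4⟩
  · left
    rw [h0]
    unfold Prm.rs
    rw [fA_zero]
    rfl
  · rw [h4]
    by_cases hh : A.addr (A.state R x e) = []
    · rw [rs_num hc h3 hh, res_eq A R x h1 hh]
      split_ifs with hl
      · exact Or.inr ⟨rfl, hl⟩
      · exact Or.inl rfl
    · left
      unfold Prm.rs
      have hA := hc.hA _ h3
      have hne : P.fA (num (A.state R x e)) ≠ 1 := by
        rw [hA]
        split_ifs
        · exact (one_lt_num hh).ne'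
        · norm_num
      unfold eq01
      rw [if_neg hne, ifz_zero]

theorem capN_cases (V : ℕ) (u : List Bool) :
    capN V (num u) = 0 ∨ capN V (num u) = num u ∧ u.length ≤ V := by
  by_cases h : u.length ≤ V
  · exact Or.inr ⟨capN_num h, h⟩
  · left
    by_contra hne
    exact h (Pool.Agent.Helper11.Ram.capN_num_le hne)

theorem T_zero (x : ℕ) :
    (P.mach f₀ X).T 0 x = ifz (ro x) (capN P.V (f₀ x)) (P.inp x) := rfl

theorem T_succ (t x : ℕ) : (P.mach f₀ X).T (t + 1) x = ifz (ro x)
    (P.rs (P.st x (P.G * P.E) ((P.mach f₀ X).Zt ((P.mach f₀ X).T t) x (P.G * P.E)))) (P.inp x) := rfl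

theorem run_head {t : ℕ} {x : List Bool} (h : x.head? = some false) :
    A.run w y R₀ t x = A.init w[bval x.tail]? y[bval x.tail]? := by
  cases t with
  | zero => exact if_pos h
  | succ t => exact if_pos h

theorem run_zero {x : List Bool} (h : x.head? ≠ some false) : A.run w y R₀ 0 x = R₀ x := if_neg h

theorem run_succ {t : ℕ} {x : List Bool} (h : x.head? ≠ some false) :
    A.run w y R₀ (t + 1) x = A.res (A.run w y R₀ t) x := if_neg h

theorem run_add (t u : ℕ) : A.run w y R₀ (t + u) = A.run w y (A.run w y R₀ t) u := by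
  induction u with
  | zero =>
    funext x
    by_cases h : x.head? = some false
    · rw [add_zero, run_head h, run_head h]
    · rw [add_zero, run_zero h]
  | succ u ih =>
    funext x
    by_cases h : x.head? = some false
    · rw [run_head h, run_head h]
    · rw [← add_assoc, run_succ h, run_succ h, ih]

/-- **Soundness of the machine on numbers.** -/
theorem T_sound (hc : Cod A w y P) (h₀ : ∀ x : List Bool, x.length ≤ P.S → x.head? ≠ some false →
    f₀ (num x) = 0 ∨ f₀ (num x) = num (R₀ x)) (t : ℕ) : ∀ x : List Bool, x.length ≤ P.S →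
    (P.mach f₀ X).T t (num x) = 0 ∨
      (P.mach f₀ X).T t (num x) = num (A.run w y R₀ t x) ∧ (A.run w y R₀ t x).length ≤ P.V := by
  induction t with
  | zero =>
    intro x hx
    rw [T_zero]
    by_cases h : x.head? = some false
    · obtain ⟨h1, h2⟩ := inp_head hc h
      rw [h2, ifz_ne one_ne_zero, h1, run_head h]
      exact capN_cases _ _
    · rw [run_zero h, ro_other h, ifz_zero]
      rcases h₀ x hx h with h1 | h1
      · left
        rw [h1, capN_zero']
      · rw [h1]
        exact capN_cases _ _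
  | succ t ih =>
    intro x hx
    rw [T_succ]
    by_cases h : x.head? = some false
    · obtain ⟨h1, h2⟩ := inp_head hc h
      rw [h2, ifz_ne one_ne_zero, h1, run_head h]
      exact capN_cases _ _
    · rw [run_succ h, ro_other h, ifz_zero]
      exact rs_sound hc x ih _

/-- The state of a processor which fits. -/
theorem st_fit (hc : Cod A w y P) {f : ℕ → ℕ} {R : List Bool → List Bool} {x : List Bool} {n : ℕ}
    (hn : A.addr (A.state R x n) = []) (hm : ∀ i ≤ n, (A.state R x i).length ≤ P.M)
    (hfit : ∀ i < n, A.addr (A.state R x i) ≠ [] ∧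
      (A.look (sd (A.state R x i) ++ R (A.addr (A.state R x i)))).length ≤ P.D ∧
      (A.addr (A.state R x i)).length ≤ P.S ∧ (R (A.addr (A.state R x i))).length ≤ P.V ∧
      f (num (A.addr (A.state R x i))) = num (R (A.addr (A.state R x i)))) (i : ℕ) :
    P.st (num x) i ((P.mach f₀ X).Zt f (num x) i) = num (A.state R x (min i n)) := by
  induction i with
  | zero =>
    rw [st_zero, Nat.zero_min]
    exact capN_num (hm 0 (Nat.zero_le n))
  | succ i ih =>
    rw [st_step, ih]
    rcases Nat.lt_or_ge i n with h | h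
    · have e1 : min i n = i := min_eq_left h.le
      have e2 : min (i + 1) n = i + 1 := min_eq_left h
      obtain ⟨g1, g3, g4, g5, g6⟩ := hfit i h
      have g2 := hm i h.le
      have hA := hc.hA _ g2
      rw [if_pos g4] at hA
      have h5 := one_lt_num g1
      rw [e1, e2, stp_nhalt (by rw [hA]; omega), nt_pos (by rw [hA]; exact h5), hA, capN_num g4, g6,
        hc.hL _ _ g2 g5, if_pos g3, capN_num g3, hc.hN _ _ g2 g3]
      have h6 := hm (i + 1) h
      have es : A.next (sd (A.state R x i) ++
          A.look (sd (A.state R x i) ++ R (A.addr (A.state R x i)))) = A.state R x (i + 1) := rfl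
      rw [es, if_pos h6, capN_num h6]
    · have e1 : min i n = n := min_eq_right h
      have e2 : min (i + 1) n = n := min_eq_right (by omega)
      rw [e1, e2]
      refine stp_halt ?_
      rw [hc.hA _ (hm n le_rfl), hn, List.length_nil, if_pos (Nat.zero_le _)]
      rfl

theorem fits_len {g : ℕ → List Bool → List Bool} {r s a b m t : ℕ} {x : List Bool}
    (h : A.Fits g r s a b m t x) : x.length ≤ s ∧ (g t x).length ≤ b := by
  cases t with
  | zero => exact h
  | succ t => exact ⟨h.1, h.2.1⟩

/-- **Completeness of the machine on numbers.** -/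
theorem T_fit (hc : Cod A w y P) (h₀ : ∀ x : List Bool, x.length ≤ P.S → x.head? ≠ some false →
    f₀ (num x) = num (R₀ x)) {r : ℕ} (hr : r ≤ P.G * P.E) (t : ℕ) : ∀ x : List Bool,
    A.Fits (A.run w y R₀) r P.S P.D P.V P.M t x →
    (P.mach f₀ X).T t (num x) = num (A.run w y R₀ t x) := by
  induction t with
  | zero =>
    intro x hx
    have hl := hx.2
    rw [T_zero]
    by_cases h : x.head? = some false
    · obtain ⟨h1, h2⟩ := inp_head hc h
      rw [run_head h] at hl ⊢
      rw [h2, ifz_ne one_ne_zero, h1, capN_num hl]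
    · rw [run_zero h] at hl ⊢
      rw [ro_other h, ifz_zero, h₀ x hx.1 h, capN_num hl]
  | succ t ih =>
    intro x hx
    obtain ⟨hxs, hl, hx'⟩ := hx
    rw [T_succ]
    by_cases h : x.head? = some false
    · obtain ⟨h1, h2⟩ := inp_head hc h
      rw [run_head h] at hl ⊢
      rw [h2, ifz_ne one_ne_zero, h1, capN_num hl]
    · rcases hx' with h' | ⟨n, hnr, hn, hm, hfit⟩
      · exact absurd h' h
      have hst := st_fit (f₀ := f₀) (X := X) hc (f := (P.mach f₀ X).T t) (R := A.run w y R₀ t) hn hm
        (fun i hi => by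
          obtain ⟨g1, g3, g4⟩ := hfit i hi
          exact ⟨g1, g3, (fits_len g4).1, (fits_len g4).2, ih _ g4⟩) (P.G * P.E)
      rw [min_eq_right (by omega)] at hst
      rw [ro_other h, ifz_zero, hst, rs_num hc (hm n le_rfl) hn]
      have hres := res_eq A (A.run w y R₀ t) x (fun j hj => (hfit j hj).1) hn
      rw [run_succ h, hres] at hl ⊢
      exact if_pos hl

end

/-- Every machine has a code. -/
theorem exists_cod (A : PAR) : ∃ (e : Cde) (c : ℕ), ∀ (w y : List Bool) (P : Prm),
    P.toCde = e → P.x = num w → P.y = num y →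
    c * (4 * (P.S + P.D + P.V + P.M) + 4) ≤ P.Λ →
    c + P.Λ + 4 * (P.S + P.D + P.V + P.M) + 4 ≤ P.β →
    2 ^ (P.S + 1) ≤ P.B → 2 ^ (P.D + 1) ≤ P.B → 2 ^ (P.V + 1) ≤ P.B → 2 ^ (P.M + 1) ≤ P.B →
    Cod A w y P := by
  obtain ⟨eA, cA, hA⟩ := fnN_spec A.addr_lin
  obtain ⟨eL, cL, hL⟩ := fnN_spec A.look_lin
  obtain ⟨eN, cN, hN⟩ := fnN_spec A.next_lin
  obtain ⟨eO, cO, hO⟩ := fnN_spec A.out_lin
  obtain ⟨B0, ini, hini⟩ := exists_ini A.init
  refine ⟨⟨eA, eL, eN, eO, ini, B0⟩, cA + cL + cN + cO, ?_⟩
  intro w y P he hx hy hΛ hβ hS hD hV hM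
  have hgood : ∀ (f : List Bool → List Bool) (e c' T : ℕ), c' ≤ cA + cL + cN + cO →
      (∀ (w : List Bool) (S Λ β B : ℕ), c' * (S + w.length + 2) ≤ Λ →
        c' + Λ + S + w.length + 1 ≤ β → 2 ^ (S + 1) ≤ B →
        fnN e S Λ β B (num w) = if (f w).length ≤ S then num (f w) else 0) →
      T ≤ P.S + P.D + P.V + P.M → 2 ^ (T + 1) ≤ P.B →
      Good f e T P.Λ P.β P.B (2 * P.M + 1 + (P.D + P.V)) := by
    intro f e c' T hc' hf hT hTB u hu
    refine hf u _ _ _ _ ?_ ?_ hTB
    · refine le_trans ?_ hΛ
      exact Nat.mul_le_mul hc' (by omega)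
    · omega
  have eeA : P.eA = eA := by rw [he]
  have eeL : P.eL = eL := by rw [he]
  have eeN : P.eN = eN := by rw [he]
  have eeO : P.eO = eO := by rw [he]
  have eei : P.ini = ini := by rw [he]
  have eeB : P.B0 = B0 := by rw [he]
  have gA := hgood A.addr eA cA P.S (by omega) hA (by omega) hS
  have gL := hgood A.look eL cL P.D (by omega) hL (by omega) hD
  have gN := hgood A.next eN cN P.M (by omega) hN (by omega) hM
  have gO := hgood A.out eO cO P.V (by omega) hO (by omega) hV
  refine ⟨fun z hz => ?_, fun z v hz hv => ?_, fun z e hz he' => ?_, fun z hz => ?_, ?_, hx, hy⟩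
  · unfold Prm.fA
    rw [eeA]
    exact gA z (by omega)
  · unfold Prm.fL
    rw [eeL, sdN_num, catN_num]
    exact gL _ (by rw [List.length_append, length_sd]; omega)
  · unfold Prm.fN
    rw [eeN, sdN_num, catN_num]
    exact gN _ (by rw [List.length_append, length_sd]; omega)
  · unfold Prm.fO
    rw [eeO]
    exact gO z (by omega)
  · rw [eei, eeB]
    exact hini

end Pool.Agent.Helper92.RT
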