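import Pool.Agent.Helper28.Few.Defs

/-!
# Parallel machines with adaptive reads: definitions
-/

namespace Pool.Agent.Helper92.RT

open Pool.Agent.Helper65.LinSpace Pool.Agent.Helper78.Mpc Pool.Agent.Helper28.Ram

/-- A parallel machine with adaptive reads. It has a processor and a register for every word `x`, and
computes in phases. The registers `0 u` are read-only; such a register contains a word which depends
on the letters number `u` (in binary) of the input word and of the advice word. All other registers
are empty at the start. In a phase the processor `x` starts in the state `x`. In the state `z` it
halts if the word `addr z` is empty; otherwise it reads the content `v` which the register `addr z`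
had at the end of the preceding phase, notes the word `e = look (⟨z⟩ v)` and goes into the state
`next (⟨z⟩ e)`, where `⟨z⟩` is the self-delimiting code of `z`. When it halts, the register `x` gets
the content `out z` (if it is not read-only). The functions are computed in linear space. -/
structure PAR where
  init : Option Bool → Option Bool → List Bool
  addr : List Bool → List Bool
  look : List Bool → List Bool
  next : List Bool → List Bool
  out : List Bool → List Bool
  addr_lin : LinComp addr
  look_lin : LinComp look
  next_lin : LinComp next
  out_lin : LinComp out

/-- The state of the processor `x` after `i` reads, `R` being the contents of the registers. -/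
def PAR.state (A : PAR) (R : List Bool → List Bool) (x : List Bool) : ℕ → List Bool
  | 0 => x
  | i + 1 =>
    let z := A.state R x i
    A.next (sd z ++ A.look (sd z ++ R (A.addr z)))

open Classical in
/-- The result of the processor `x`, `R` being the contents of the registers; the empty word if it
does not halt. -/
noncomputable def PAR.res (A : PAR) (R : List Bool → List Bool) (x : List Bool) : List Bool :=
  if h : ∃ i, A.addr (A.state R x i) = [] then A.out (A.state R x (Nat.find h)) else []

/-- The contents of the registers after `t` phases on the input word `w` and the advice word `y`,
`R` being the contents at the start of the registers which are not read-only. -/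
noncomputable def PAR.run (A : PAR) (w y : List Bool) (R : List Bool → List Bool) :
    ℕ → List Bool → List Bool
  | 0, x => if x.head? = some false then A.init w[bval x.tail]? y[bval x.tail]? else R x
  | t + 1, x => if x.head? = some false then A.init w[bval x.tail]? y[bval x.tail]?
      else A.res (A.run w y R t) x

/-- The contents of the registers after `t` phases of the computation on the input word `w` and the
advice word `y`. -/
noncomputable def PAR.conf (A : PAR) (w y : List Bool) : ℕ → List Bool → List Bool :=
  A.run w y fun _ => []

/-- The register `X` is not read-only, and its content after `d` phases begins with `1`. -/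
def PAR.AcceptsAt (A : PAR) (w y : List Bool) (d : ℕ) (X : List Bool) : Prop :=
  X.head? ≠ some false ∧ (A.conf w y d X).head? = some true

/-- Let `f t` be the contents of the registers after `t` phases. The content of the register `x`
after `t` phases is computed within the following bounds: a processor halts after at most `r` reads;
names have at most `s` bits, noted words at most `a` bits, contents at most `b` bits, and states at
most `m` bits. This is demanded only of the processor `x` in the phase `t` and, recursively, of those
whose results it reads. -/
def PAR.Fits (A : PAR) (f : ℕ → List Bool → List Bool) (r s a b m : ℕ) : ℕ → List Bool → Prop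
  | 0, x => x.length ≤ s ∧ (f 0 x).length ≤ b
  | t + 1, x => x.length ≤ s ∧ (f (t + 1) x).length ≤ b ∧ (x.head? = some false ∨
      ∃ n ≤ r, A.addr (A.state (f t) x n) = [] ∧
        (∀ i ≤ n, (A.state (f t) x i).length ≤ m) ∧
        ∀ i < n, A.addr (A.state (f t) x i) ≠ [] ∧
          (A.look (sd (A.state (f t) x i) ++ f t (A.addr (A.state (f t) x i)))).length ≤ a ∧
          A.Fits f r s a b m t (A.addr (A.state (f t) x i)))

/-- `A` accepts the input word `w` with the advice word `y` by the content of a register `X` after
`d` phases and within the following bounds, where `n` is the length of `w` and
`l = ⌊log₂ n⌋ + 1`: in a phase a processor makes at most `r` reads, names have at most `s` bits,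
noted words at most `a` bits, contents at most `b` bits and states at most `m` bits, and for some
number `e ≥ 1`
`d ((e + l) s + r l / e) l ≤ C (n + 1)` and `(e (a + b) + r a + m) l ^ 2 ≤ C (n + 1)`. -/
def PAR.Within (A : PAR) (C : ℝ) (w y : List Bool) : Prop :=
  ∃ (d : ℕ) (X : List Bool) (r s a b m e : ℕ), 0 < s ∧ 0 < a ∧ 0 < e ∧ A.AcceptsAt w y d X ∧
    A.Fits (A.conf w y) r s a b m d X ∧
    (d : ℝ) * (((e : ℝ) + ((Nat.log 2 w.length : ℝ) + 1)) * s +
        (r : ℝ) * ((Nat.log 2 w.length : ℝ) + 1) / e) * ((Nat.log 2 w.length : ℝ) + 1) ≤
      C * ((w.length : ℝ) + 1) ∧
    ((e : ℝ) * ((a : ℝ) + b) + (r : ℝ) * a + m) * ((Nat.log 2 w.length : ℝ) + 1) ^ 2 ≤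
      C * ((w.length : ℝ) + 1)

end Pool.Agent.Helper92.RT
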