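import Pool.Agent.Helper92.RT.Cor
import Pool.Agent.Helper65.RT.Goals

/-!
# The machines on numbers form a family computed in linear space
-/

set_option exponentiation.threshold 50000

namespace Pool.Agent.Helper92.RT

open Pool.Agent.Helper65.LinSpace Pool.Agent.Helper78.Mpc Pool.Agent.Helper28.Ram Finset
open Pool.Agent.Helper65.RT (qT CT Par LSM)

variable {α : Type} [Ctx α]

/-- The parameters are computed in linear space, and all words are short. -/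
structure LSP (P : α → Prm) (C : α → ℕ) : Prop where
  eA : LS (fun z => (P z).eA)
  eL : LS (fun z => (P z).eL)
  eN : LS (fun z => (P z).eN)
  eO : LS (fun z => (P z).eO)
  ini : LS (fun z => (P z).ini)
  B0 : LS (fun z => (P z).B0)
  Λ : LS (fun z => (P z).Λ)
  β : LS (fun z => (P z).β)
  B : LS (fun z => (P z).B)
  x : LS (fun z => (P z).x)
  y : LS (fun z => (P z).y)
  S : LS (fun z => (P z).S)
  D : LS (fun z => (P z).D)
  V : LS (fun z => (P z).V)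
  M : LS (fun z => (P z).M)
  E : LS (fun z => (P z).E)
  G : LS (fun z => (P z).G)
  K : LS (fun z => (P z).K)
  bd : LS C
  hβ : ∀ z, 0 < (P z).β
  hb : ∀ z, (P z).β ^ (P z).Λ ≤ C z
  hS : ∀ z, 2 ^ ((P z).S + 1) ≤ C z
  hD : ∀ z, 2 ^ ((P z).D + 1) ≤ C z
  hV : ∀ z, 2 ^ ((P z).V + 1) ≤ C z
  hM : ∀ z, 2 ^ ((P z).M + 1) ≤ C z

section

variable {P : α → Prm} {C : α → ℕ}

theorem ls_fA (h : LSP P C) : LS (fun b : α × ℕ => (P b.1).fA b.2) := by
  unfold Prm.fA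
  have a1 : LS (fun b : α × ℕ => b.1) := by fun_prop
  exact LS.fnN (LS.comp (g := fun z => (P z).eA) h.eA a1) (LS.comp (g := fun z => (P z).S) h.S a1)
    (LS.comp (g := fun z => (P z).Λ) h.Λ a1) (LS.comp (g := fun z => (P z).β) h.β a1)
    (LS.comp (g := fun z => (P z).B) h.B a1) (by fun_prop) (LS.comp (g := C) h.bd a1)
    (fun b => h.hβ b.1) (fun b => h.hb b.1) (fun b => h.hS b.1)

theorem ls_fL (h : LSP P C) : LS (fun b : α × ℕ × ℕ => (P b.1).fL b.2.1 b.2.2) := by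
  unfold Prm.fL
  have a1 : LS (fun b : α × ℕ × ℕ => b.1) := by fun_prop
  exact LS.fnN (LS.comp (g := fun z => (P z).eL) h.eL a1) (LS.comp (g := fun z => (P z).D) h.D a1)
    (LS.comp (g := fun z => (P z).Λ) h.Λ a1) (LS.comp (g := fun z => (P z).β) h.β a1)
    (LS.comp (g := fun z => (P z).B) h.B a1) (by fun_prop) (LS.comp (g := C) h.bd a1)
    (fun b => h.hβ b.1) (fun b => h.hb b.1) (fun b => h.hD b.1)

theorem ls_fN (h : LSP P C) : LS (fun b : α × ℕ × ℕ => (P b.1).fN b.2.1 b.2.2) := by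
  unfold Prm.fN
  have a1 : LS (fun b : α × ℕ × ℕ => b.1) := by fun_prop
  exact LS.fnN (LS.comp (g := fun z => (P z).eN) h.eN a1) (LS.comp (g := fun z => (P z).M) h.M a1)
    (LS.comp (g := fun z => (P z).Λ) h.Λ a1) (LS.comp (g := fun z => (P z).β) h.β a1)
    (LS.comp (g := fun z => (P z).B) h.B a1) (by fun_prop) (LS.comp (g := C) h.bd a1)
    (fun b => h.hβ b.1) (fun b => h.hb b.1) (fun b => h.hM b.1)

theorem ls_fO (h : LSP P C) : LS (fun b : α × ℕ => (P b.1).fO b.2) := by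
  unfold Prm.fO
  have a1 : LS (fun b : α × ℕ => b.1) := by fun_prop
  exact LS.fnN (LS.comp (g := fun z => (P z).eO) h.eO a1) (LS.comp (g := fun z => (P z).V) h.V a1)
    (LS.comp (g := fun z => (P z).Λ) h.Λ a1) (LS.comp (g := fun z => (P z).β) h.β a1)
    (LS.comp (g := fun z => (P z).B) h.B a1) (by fun_prop) (LS.comp (g := C) h.bd a1)
    (fun b => h.hβ b.1) (fun b => h.hb b.1) (fun b => h.hV b.1)

theorem ls_inp (h : LSP P C) : LS (fun b : α × ℕ => (P b.1).inp b.2) := by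
  unfold Prm.inp ix
  have a1 : LS (fun b : α × ℕ => b.1) := by fun_prop
  have e1 : LS (fun b : α × ℕ => (P b.1).B0) := LS.comp (g := fun z => (P z).B0) h.B0 a1
  have e2 : LS (fun b : α × ℕ => (P b.1).ini) := LS.comp (g := fun z => (P z).ini) h.ini a1
  have e3 : LS (fun b : α × ℕ => (P b.1).x) := LS.comp (g := fun z => (P z).x) h.x a1
  have e4 : LS (fun b : α × ℕ => (P b.1).y) := LS.comp (g := fun z => (P z).y) h.y a1
  have e5 : LS (fun b : α × ℕ => (P b.1).V) := LS.comp (g := fun z => (P z).V) h.V a1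
  fun_prop

theorem ls_stp (h : LSP P C) : LS (fun b : α × ℕ × ℕ => (P b.1).stp b.2.1 b.2.2) := by
  unfold Prm.stp
  have a1 : LS (fun b : α × ℕ × ℕ => (b.1, b.2.1)) := by fun_prop
  have e1 : LS (fun b : α × ℕ × ℕ => (P b.1).fA b.2.1) :=
    LS.comp (g := fun b : α × ℕ => (P b.1).fA b.2) (ls_fA h) a1
  have e2 : LS (fun b : α × ℕ × ℕ => (P b.1).M) :=
    LS.comp (g := fun z => (P z).M) h.M (f := fun b : α × ℕ × ℕ => b.1) (by fun_prop)
  have e3 := ls_fN h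
  fun_prop

theorem ls_pow (h : LSP P C) : LS (fun z => 2 ^ ((P z).D + 1)) := by
  have := h.D
  exact LS.pow_of_le (f := fun _ => 2) (g := fun z => (P z).D + 1) (by fun_prop) (by fun_prop) h.bd
    h.hD

theorem st_lt (P : Prm) (x i Z : ℕ) : P.st x i Z < 2 ^ (P.M + 1) := by
  induction i with
  | zero =>
    rw [st_zero]
    exact capN_lt _ _
  | succ i ih =>
    rw [st_succ]
    unfold Prm.stp ifz
    split_ifs
    · exact capN_lt _ _
    · exact ih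

theorem ls_st (h : LSP P C) :
    LS (fun b : α × ℕ × ℕ × ℕ => (P b.1).st b.2.1 b.2.2.1 b.2.2.2) := by
  unfold Prm.st
  have a1 : LS (fun b : α × ℕ × ℕ × ℕ => b.1) := by fun_prop
  have e1 : LS (fun b : α × ℕ × ℕ × ℕ => (P b.1).M) := LS.comp (g := fun z => (P z).M) h.M a1
  have e2 : LS (fun b : (α × ℕ × ℕ × ℕ) × ℕ × ℕ => 2 ^ ((P b.1.1).D + 1)) :=
    LS.comp (g := fun z => 2 ^ ((P z).D + 1)) (ls_pow h) (f := fun b : (α × ℕ × ℕ × ℕ) × ℕ × ℕ =>
      b.1.1) (by fun_prop)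
  have e3 : LS (fun b : (α × ℕ × ℕ × ℕ) × ℕ × ℕ =>
      (b.1.1, b.2.2, dig (2 ^ ((P b.1.1).D + 1)) b.1.2.2.2 b.2.1)) := by fun_prop
  have e4 : LS (fun b : (α × ℕ × ℕ × ℕ) × ℕ × ℕ =>
      (P b.1.1).stp b.2.2 (dig (2 ^ ((P b.1.1).D + 1)) b.1.2.2.2 b.2.1)) :=
    LS.comp (g := fun b : α × ℕ × ℕ => (P b.1).stp b.2.1 b.2.2) (ls_stp h) e3
  refine LS.nrec (G := fun b : α × ℕ × ℕ × ℕ => capN (P b.1).M b.2.1)
    (N := fun b : α × ℕ × ℕ × ℕ => b.2.2.1) (C := fun b : α × ℕ × ℕ × ℕ => C b.1)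
    (K := fun (b : α × ℕ × ℕ × ℕ) t z => (P b.1).stp z (dig (2 ^ ((P b.1).D + 1)) b.2.2.2 t))
    (by fun_prop) (by fun_prop) (LS.comp (g := C) h.bd a1) e4 ?_
  intro b i _
  exact le_trans (st_lt (P b.1) b.2.1 i b.2.2.2).le (h.hM b.1)

theorem ls_nt (h : LSP P C) : LS (fun b : α × ℕ × ℕ => (P b.1).nt b.2.1 b.2.2) := by
  unfold Prm.nt
  have a1 : LS (fun b : α × ℕ × ℕ => (b.1, b.2.1)) := by fun_prop
  have e1 : LS (fun b : α × ℕ × ℕ => (P b.1).fA b.2.1) :=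
    LS.comp (g := fun b : α × ℕ => (P b.1).fA b.2) (ls_fA h) a1
  have e2 : LS (fun b : α × ℕ × ℕ => (P b.1).D) :=
    LS.comp (g := fun z => (P z).D) h.D (f := fun b : α × ℕ × ℕ => b.1) (by fun_prop)
  have e3 := ls_fL h
  fun_prop

theorem ls_rs (h : LSP P C) : LS (fun b : α × ℕ => (P b.1).rs b.2) := by
  unfold Prm.rs
  have e1 := ls_fA h
  have e2 : LS (fun b : α × ℕ => (P b.1).V) :=
    LS.comp (g := fun z => (P z).V) h.V (f := fun b : α × ℕ => b.1) (by fun_prop)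
  have e3 := ls_fO h
  fun_prop

theorem ls_ro {f : α → ℕ} (hf : LS f) : LS (fun z => ro (f z)) := by
  unfold ro
  fun_prop

theorem inp_lt (P : Prm) (x : ℕ) : P.inp x < 2 ^ (P.V + 1) := capN_lt _ _

theorem ok_mach (P : Prm) (f : ℕ → ℕ) (X : ℕ) (hE : 0 < P.E) (hG : 0 < P.G) :
    (P.mach f X).Ok := by
  refine ⟨Nat.succ_pos _, Nat.succ_pos _, Nat.succ_pos _, hE, hG, fun x i Z => capN_lt _ _,
    fun x i Z v => nt_lt _ _, fun x Z => ?_, fun x => ?_, ?_⟩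
  · show ifz (ro x) (P.rs (P.st x (P.G * P.E) Z)) (P.inp x) < 2 ^ (P.V + 1)
    unfold ifz
    split_ifs
    · exact rs_lt _
    · exact inp_lt _ _
  · show ifz (ro x) (capN P.V (f x)) (P.inp x) < 2 ^ (P.V + 1)
    unfold ifz
    split_ifs
    · exact capN_lt _ _
    · exact inp_lt _ _
  · show capN P.S X < 2 ^ (P.S + 1)
    exact capN_lt _ _

/-- The machines on numbers form a family computed in linear space. -/
theorem lsm_mach (h : LSP P C) {f : α → ℕ → ℕ} {X : α → ℕ} (hf : LS (fun b : α × ℕ => f b.1 b.2))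
    (hX : LS X) (hE : ∀ z, 0 < (P z).E) (hG : ∀ z, 0 < (P z).G)
    (h1 : ∀ z, 2 ^ ((P z).mach (f z) (X z)).nv ((P z).mach (f z) (X z)).G ≤ C z)
    (h2 : ∀ z, 2 ^ (((P z).mach (f z) (X z)).σ * ((P z).mach (f z) (X z)).E) ≤ C z) :
    LSM (fun z => (P z).mach (f z) (X z)) C := by
  have hS := h.S
  have hD := h.D
  have hV := h.V
  refine ⟨?_, ?_, ?_, h.E, h.G, h.K, ?_, ?_, ?_, ?_, ?_, h.bd,
    fun z => ok_mach (P z) (f z) (X z) (hE z) (hG z), h1, h2⟩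
  · show LS (fun z => (P z).S + 1)
    fun_prop
  · show LS (fun z => (P z).D + 1)
    fun_prop
  · show LS (fun z => (P z).V + 1)
    fun_prop
  · show LS (fun b : α × ℕ × ℕ × ℕ =>
      capN (P b.1).S ((P b.1).fA ((P b.1).st b.2.1 b.2.2.1 b.2.2.2)))
    have e0 := ls_st h
    have e1 : LS (fun b : α × ℕ × ℕ × ℕ => (b.1, (P b.1).st b.2.1 b.2.2.1 b.2.2.2)) := by fun_prop
    have e2 : LS (fun b : α × ℕ × ℕ × ℕ => (P b.1).fA ((P b.1).st b.2.1 b.2.2.1 b.2.2.2)) :=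
      LS.comp (g := fun b : α × ℕ => (P b.1).fA b.2) (ls_fA h) e1
    have e3 : LS (fun b : α × ℕ × ℕ × ℕ => (P b.1).S) :=
      LS.comp (g := fun z => (P z).S) h.S (f := fun b : α × ℕ × ℕ × ℕ => b.1) (by fun_prop)
    fun_prop
  · show LS (fun b : α × ℕ × ℕ × ℕ × ℕ =>
      (P b.1).nt ((P b.1).st b.2.1 b.2.2.1 b.2.2.2.1) b.2.2.2.2)
    have e0 : LS (fun b : α × ℕ × ℕ × ℕ × ℕ => (P b.1).st b.2.1 b.2.2.1 b.2.2.2.1) :=
      LS.comp (g := fun b : α × ℕ × ℕ × ℕ => (P b.1).st b.2.1 b.2.2.1 b.2.2.2) (ls_st h)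
        (f := fun b : α × ℕ × ℕ × ℕ × ℕ => (b.1, b.2.1, b.2.2.1, b.2.2.2.1)) (by fun_prop)
    have e1 : LS (fun b : α × ℕ × ℕ × ℕ × ℕ =>
      (b.1, (P b.1).st b.2.1 b.2.2.1 b.2.2.2.1, b.2.2.2.2)) := by fun_prop
    exact LS.comp (g := fun b : α × ℕ × ℕ => (P b.1).nt b.2.1 b.2.2) (ls_nt h) e1
  · show LS (fun b : α × ℕ × ℕ => ifz (ro b.2.1)
      ((P b.1).rs ((P b.1).st b.2.1 ((P b.1).G * (P b.1).E) b.2.2)) ((P b.1).inp b.2.1))
    have eG : LS (fun b : α × ℕ × ℕ => (P b.1).G) :=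
      LS.comp (g := fun z => (P z).G) h.G (f := fun b : α × ℕ × ℕ => b.1) (by fun_prop)
    have eE : LS (fun b : α × ℕ × ℕ => (P b.1).E) :=
      LS.comp (g := fun z => (P z).E) h.E (f := fun b : α × ℕ × ℕ => b.1) (by fun_prop)
    have e0 : LS (fun b : α × ℕ × ℕ => (P b.1).st b.2.1 ((P b.1).G * (P b.1).E) b.2.2) :=
      LS.comp (g := fun b : α × ℕ × ℕ × ℕ => (P b.1).st b.2.1 b.2.2.1 b.2.2.2) (ls_st h)
        (f := fun b : α × ℕ × ℕ => (b.1, b.2.1, (P b.1).G * (P b.1).E, b.2.2)) (by fun_prop)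
    have e1 : LS (fun b : α × ℕ × ℕ =>
      (P b.1).rs ((P b.1).st b.2.1 ((P b.1).G * (P b.1).E) b.2.2)) :=
      LS.comp (g := fun b : α × ℕ => (P b.1).rs b.2) (ls_rs h)
        (f := fun b : α × ℕ × ℕ => (b.1, (P b.1).st b.2.1 ((P b.1).G * (P b.1).E) b.2.2))
        (by fun_prop)
    have e2 : LS (fun b : α × ℕ × ℕ => (P b.1).inp b.2.1) :=
      LS.comp (g := fun b : α × ℕ => (P b.1).inp b.2) (ls_inp h)
        (f := fun b : α × ℕ × ℕ => (b.1, b.2.1)) (by fun_prop)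
    exact LS.ifz (ls_ro (by fun_prop)) e1 e2
  · show LS (fun b : α × ℕ => ifz (ro b.2) (capN (P b.1).V (f b.1 b.2)) ((P b.1).inp b.2))
    have e1 : LS (fun b : α × ℕ => (P b.1).V) :=
      LS.comp (g := fun z => (P z).V) h.V (f := fun b : α × ℕ => b.1) (by fun_prop)
    exact LS.ifz (ls_ro (by fun_prop)) (by fun_prop) (ls_inp h)
  · show LS (fun z => capN (P z).S (X z))
    fun_prop

end

end Pool.Agent.Helper92.RT
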