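import Pool.Agent.Helper92.RT.Par
import Pool.Agent.Helper28.Few.Main

/-!
# Parallel machines with adaptive reads are weaker than linear space
-/

set_option exponentiation.threshold 50000

namespace Pool.Agent.Helper92.RT

open Pool.Agent.Helper65.LinSpace Pool.Agent.Helper78.Mpc Pool.Agent.Helper28.Ram Finset Filter
open Pool.Agent.Helper65.RT (qT CT Par LSM Sim)
open Pool.Agent.Helper28.Long (ZL)

/-- `1` if `X` is the number of the name of a register which is not read-only. -/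
def rt (X : ℕ) : ℕ := lt01 0 X * (1 - ro X)

theorem rt_num {X : List Bool} (h : X.head? ≠ some false) : rt (num X) = 1 := by
  unfold rt lt01
  rw [ro_other h, if_pos (num_pos X)]

theorem rt_ne {X : ℕ} (h : rt X ≠ 0) : ∃ u : List Bool, num u = X ∧ u.head? ≠ some false := by
  unfold rt at h
  have h1 := lt01_ne (left_ne_zero_of_mul h)
  have h2 := right_ne_zero_of_mul h
  obtain ⟨u, hu⟩ := exists_num h1
  refine ⟨u, hu, fun hc => h2 ?_⟩
  rcases u with _ | ⟨b, u⟩
  · exact absurd hc (by simp)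
  · cases b with
    | true => exact absurd hc (by simp)
    | false =>
      rw [← hu, ro_false]
      exact Nat.sub_self 1

theorem len_of_num_lt {u : List Bool} {S : ℕ} (h : num u < 2 ^ (S + 1)) : u.length ≤ S := by
  have h1 : Nat.log 2 (num u) < S + 1 := Nat.log_lt_of_lt_pow (num_pos u).ne' h
  rw [log_num] at h1
  omega

/-- The number of codes of bounds and roots. -/
def NB (x : ℕ) : ℕ := bs x ^ 7 * (x + 2) ^ 8

/-- The simulation: `1` if the machine with the code `e` accepts, with the bounds and the root coded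
by `T`. -/
noncomputable def accB (P : Sim) (e x y T : ℕ) : ℕ :=
  rt (capN (prT e x y (T % bs x ^ 7)).S (T / bs x ^ 7)) *
    accN (P.sim (Nat.log 2 x) ((prT e x y (T % bs x ^ 7)).mach (fun _ => 1) (T / bs x ^ 7)))

theorem LS.NB : LS RT.NB := by
  unfold RT.NB
  have h : LS (fun z : ℕ => bs z) := ls_bs (by fun_prop)
  exact LS.mul (LS.pow_const h 7) (LS.pow_const (by fun_prop) 8)

theorem ls_rt {α : Type} [Ctx α] {f : α → ℕ} (hf : LS f) : LS (fun z => rt (f z)) := by
  unfold rt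
  have := ls_ro hf
  fun_prop

theorem LS.accB (P : Sim) :
    LS (fun z : ℕ × ℕ × ℕ × ℕ => accB P z.1 z.2.1 z.2.2.1 z.2.2.2) := by
  unfold RT.accB
  have hx : LS (fun z : ℕ × ℕ × ℕ × ℕ => z.2.1) := by fun_prop
  have hb : LS (fun z : ℕ × ℕ × ℕ × ℕ => bs z.2.1 ^ 7) := LS.pow_const (ls_bs hx) 7
  have hT : LS (fun z : ℕ × ℕ × ℕ × ℕ => z.2.2.2 % bs z.2.1 ^ 7) := by fun_prop
  have hX : LS (fun z : ℕ × ℕ × ℕ × ℕ => z.2.2.2 / bs z.2.1 ^ 7) := by fun_prop
  have h : LSP (fun z : ℕ × ℕ × ℕ × ℕ => prT z.1 z.2.1 z.2.2.1 (z.2.2.2 % bs z.2.1 ^ 7))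
      (fun z : ℕ × ℕ × ℕ × ℕ => CT z.2.1) :=
    lsp_prT (by fun_prop) hx (by fun_prop) hT
  have hS := h.S
  refine LS.mul (ls_rt (by fun_prop)) (Pool.Agent.Helper59.Ram.LS_accN ?_)
  have hs := fun z : ℕ × ℕ × ℕ × ℕ => prm_spec (cde z.1) z.2.1 z.2.2.1
    (dig (bs z.2.1) (z.2.2.2 % bs z.2.1 ^ 7) 0) (dig (bs z.2.1) (z.2.2.2 % bs z.2.1 ^ 7) 1)
    (dig (bs z.2.1) (z.2.2.2 % bs z.2.1 ^ 7) 2) (dig (bs z.2.1) (z.2.2.2 % bs z.2.1 ^ 7) 3)
    (dig (bs z.2.1) (z.2.2.2 % bs z.2.1 ^ 7) 4) (dig (bs z.2.1) (z.2.2.2 % bs z.2.1 ^ 7) 5)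
    (dig (bs z.2.1) (z.2.2.2 % bs z.2.1 ^ 7) 6)
  have hn := fun z : ℕ × ℕ × ℕ × ℕ =>
    P.nv ((prT z.1 z.2.1 z.2.2.1 (z.2.2.2 % bs z.2.1 ^ 7)).mach (fun _ => 1)
      (z.2.2.2 / bs z.2.1 ^ 7)) z.2.1 (ok_mach _ _ _ (hs z).2.1 (hs z).2.2.1) ((hs z).1 _ _)
  exact P.ls hx (lsm_mach h (f := fun _ _ => 1) (LS.const 1) hX (fun z => (hs z).2.1)
    (fun z => (hs z).2.2.1) (fun z => (hn z).1) fun z => (hn z).2) fun z => (hs z).1 _ _

/-! ### The theorem -/

/-- The code of the bounds. -/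
def tcode (x d e g s a b m : ℕ) : ℕ :=
  tab (bs x) 7 fun i => if i = 0 then d else if i = 1 then e else if i = 2 then g else
    if i = 3 then s else if i = 4 then a else if i = 5 then b else m

theorem tcode_spec {x d e g s a b m : ℕ} (hd : d < bs x) (he : e < bs x) (hg : g < bs x)
    (hs : s < bs x) (ha : a < bs x) (hb : b < bs x) (hm : m < bs x) :
    tcode x d e g s a b m < bs x ^ 7 ∧ dig (bs x) (tcode x d e g s a b m) 0 = d ∧
      dig (bs x) (tcode x d e g s a b m) 1 = e ∧ dig (bs x) (tcode x d e g s a b m) 2 = g ∧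
      dig (bs x) (tcode x d e g s a b m) 3 = s ∧ dig (bs x) (tcode x d e g s a b m) 4 = a ∧
      dig (bs x) (tcode x d e g s a b m) 5 = b ∧ dig (bs x) (tcode x d e g s a b m) 6 = m := by
  have h : ∀ i < 7, (if i = 0 then d else if i = 1 then e else if i = 2 then g else
      if i = 3 then s else if i = 4 then a else if i = 5 then b else m) < bs x := by
    intro i hi
    split_ifs <;> assumption
  unfold tcode
  refine ⟨tab_lt h, ?_, ?_, ?_, ?_, ?_, ?_, ?_⟩
  · exact dig_tab h (i := 0) (by norm_num)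
  · exact dig_tab h (i := 1) (by norm_num)
  · exact dig_tab h (i := 2) (by norm_num)
  · exact dig_tab h (i := 3) (by norm_num)
  · exact dig_tab h (i := 4) (by norm_num)
  · exact dig_tab h (i := 5) (by norm_num)
  · exact dig_tab h (i := 6) (by norm_num)

theorem exists_good (P : Sim) (A : PAR) (C : ℝ) : ∃ e n₀ : ℕ,
    ∀ w y : List Bool, n₀ ≤ w.length →
    (∀ T < NB (num w), accB P e (num w) (num y) T ≠ 0 → ∃ d X, A.AcceptsAt w y d X) ∧
    (A.Within C w y → ∃ T < NB (num w), accB P e (num w) (num y) T ≠ 0) := by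
  obtain ⟨c, k, hcod⟩ := exists_cod A
  obtain ⟨e, he⟩ := exists_cde c
  obtain ⟨n₁, hn₁⟩ := eventually_atTop.1 (ev_cod k)
  obtain ⟨n₂, hn₂⟩ := eventually_atTop.1 (ev_good C)
  refine ⟨e, n₁ + n₂, fun w y hw => ?_⟩
  have hlog := log_num w
  -- the code of the machine is good
  have hC : ∀ T, Cod A w y (prT e (num w) (num y) T) := by
    intro T
    obtain ⟨p1, p2, p3, p4⟩ := prm_spec (cde e) (num w) (num y) (dig (bs (num w)) T 0)
      (dig (bs (num w)) T 1) (dig (bs (num w)) T 2) (dig (bs (num w)) T 3) (dig (bs (num w)) T 4)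
      (dig (bs (num w)) T 5) (dig (bs (num w)) T 6)
    obtain ⟨q1, q2, q3, q4⟩ := prm_pow (cde e) (num w) (num y) (dig (bs (num w)) T 0)
      (dig (bs (num w)) T 1) (dig (bs (num w)) T 2) (dig (bs (num w)) T 3) (dig (bs (num w)) T 4)
      (dig (bs (num w)) T 5) (dig (bs (num w)) T 6)
    obtain ⟨r1, r2⟩ := hn₁ (Nat.log 2 (num w)) (by rw [hlog]; omega) _ p4
    exact hcod w y (prT e (num w) (num y) T) he rfl rfl r1 r2 q1 q2 q3 q4
  constructor
  · intro T hT hne
    unfold accB at hne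
    set T₀ := T % bs (num w) ^ 7
    set X := T / bs (num w) ^ 7
    set Q := prT e (num w) (num y) T₀ with hQ
    obtain ⟨p1, p2, p3, p4⟩ := prm_spec (cde e) (num w) (num y) (dig (bs (num w)) T₀ 0)
      (dig (bs (num w)) T₀ 1) (dig (bs (num w)) T₀ 2) (dig (bs (num w)) T₀ 3)
      (dig (bs (num w)) T₀ 4) (dig (bs (num w)) T₀ 5) (dig (bs (num w)) T₀ 6)
    obtain ⟨u, hu, hu'⟩ := rt_ne (left_ne_zero_of_mul hne)
    have hul : u.length ≤ Q.S := len_of_num_lt (by rw [hu]; exact capN_lt _ _)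
    have h1 := right_ne_zero_of_mul hne
    have h2 := P.eq (Q.mach (fun _ => 1) X) (Nat.log 2 (num w)) (ok_mach Q _ _ p2 p3) (p1 _ _)
    rw [h2] at h1
    have h3 := T_sound (f₀ := fun _ => 1) (X := X) (R₀ := fun _ => []) (hC T₀)
      (fun x _ _ => Or.inr rfl) Q.K u hul
    have h4 : (Q.mach (fun _ => 1) X).T (Q.mach (fun _ => 1) X).K (Q.mach (fun _ => 1) X).root =
        (Q.mach (fun _ => 1) X).T Q.K (num u) := by
      rw [hu]
      rfl
    rw [h4] at h1
    rcases h3 with h3 | ⟨h3, -⟩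
    · rw [h3] at h1
      exact absurd rfl h1
    · rw [h3] at h1
      exact ⟨Q.K, u, hu', (accN_num _).1 (le_antisymm (accN_le _) (Nat.pos_of_ne_zero h1))⟩
  · rintro ⟨d, X, r, s, a, b, m, e', hs, ha, he', hacc, hfit, b1, b2⟩
    have hd : 0 < d := by
      rcases Nat.eq_zero_or_pos d with h | h
      · subst h
        have h1 := hacc.2
        unfold PAR.conf at h1
        rw [run_zero hacc.1] at h1
        exact absurd h1 (by simp)
      · exact h
    obtain ⟨g1, g2, g3, g4, g5, g6, g7, g8⟩ := hn₂ w.length (by omega) d r s a b m e' hd hs ha he'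
      b1 b2
    have hbs : bs (num w) = 4 * (w.length + 2) := by
      unfold bs
      rw [hlog]
    obtain ⟨t0, t1, t2, t3, t4, t5, t6, t7⟩ := tcode_spec (x := num w) (d := d) (e := e')
      (g := r / e' + 1) (s := s) (a := a) (b := b) (m := m) (by rw [hbs]; exact g2)
      (by rw [hbs]; exact g3) (by rw [hbs]; exact g4) (by rw [hbs]; exact g5)
      (by rw [hbs]; exact g6) (by rw [hbs]; exact g7) (by rw [hbs]; exact g8)
    generalize tcode (num w) d e' (r / e' + 1) s a b m = T₀ at t0 t1 t2 t3 t4 t5 t6 t7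
    have hQ : prT e (num w) (num y) T₀ =
        prm0 (cde e) (num w) (num y) d e' (r / e' + 1) s a b m := by
      unfold prT
      rw [t1, t2, t3, t4, t5, t6, t7]
      refine prm_good _ ?_
      rw [hlog]
      exact g1
    have hXs : X.length ≤ s := (fits_len hfit).1
    have hCod := hC T₀
    have hspec := prm_spec (cde e) (num w) (num y) (dig (bs (num w)) T₀ 0)
      (dig (bs (num w)) T₀ 1) (dig (bs (num w)) T₀ 2) (dig (bs (num w)) T₀ 3)
      (dig (bs (num w)) T₀ 4) (dig (bs (num w)) T₀ 5) (dig (bs (num w)) T₀ 6)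
    change (∀ (f : ℕ → ℕ) (X : ℕ), Par (Nat.log 2 (num w))
      ((prT e (num w) (num y) T₀).mach f X)) ∧ 0 < (prT e (num w) (num y) T₀).E ∧
      0 < (prT e (num w) (num y) T₀).G ∧ _ at hspec
    rw [hQ] at hCod hspec
    obtain ⟨p1, p2, p3, p4⟩ := hspec
    -- the code of the bounds and the root
    have e1 : (T₀ + bs (num w) ^ 7 * num X) % bs (num w) ^ 7 = T₀ := by
      rw [Nat.add_mul_mod_self_left, Nat.mod_eq_of_lt t0]
    have e2 : (T₀ + bs (num w) ^ 7 * num X) / bs (num w) ^ 7 = num X := by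
      rw [Nat.add_mul_div_left _ _ (by omega), Nat.div_eq_of_lt t0, zero_add]
    refine ⟨T₀ + bs (num w) ^ 7 * num X, ?_, ?_⟩
    · have hX1 : num X < (num w + 2) ^ 8 := by
        have u1 : num X < 2 ^ (X.length + 1) := by
          have := Nat.lt_pow_succ_log_self (b := 2) (by norm_num) (num X)
          rwa [log_num] at this
        have u2 : (d + 1) * (s + 1) ≤ 4 * qT w.length := (good_ne g1).2.2.1
        have u3 : s + 1 ≤ (d + 1) * (s + 1) := Nat.le_mul_of_pos_left _ (by omega)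
        have u4 := qT_le w.length
        have u5 : 2 ^ (X.length + 1) ≤ 2 ^ (4 * (Nat.log 2 (num w) + 1)) :=
          Nat.pow_le_pow_right (by norm_num) (by rw [hlog]; omega)
        have u6 := two_pow_log_le (num w) 4
        exact lt_of_lt_of_le u1 (u5.trans u6)
      unfold NB
      calc T₀ + bs (num w) ^ 7 * num X < bs (num w) ^ 7 + bs (num w) ^ 7 * num X := by omega
        _ = bs (num w) ^ 7 * (num X + 1) := by ring
        _ ≤ _ := Nat.mul_le_mul_left _ hX1
    · unfold accB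
      rw [e1, e2, hQ]
      have hcap : capN (prm0 (cde e) (num w) (num y) d e' (r / e' + 1) s a b m).S (num X) =
          num X := capN_num hXs
      rw [hcap, rt_num hacc.1, one_mul]
      set Q := prm0 (cde e) (num w) (num y) d e' (r / e' + 1) s a b m with hQ'
      have h2 := P.eq (Q.mach (fun _ => 1) (num X)) (Nat.log 2 (num w)) (ok_mach Q _ _ p2 p3)
        (p1 _ _)
      rw [h2]
      have h4 : (Q.mach (fun _ => 1) (num X)).T (Q.mach (fun _ => 1) (num X)).K
          (Q.mach (fun _ => 1) (num X)).root =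
          (Q.mach (fun _ => 1) (num X)).T Q.K (capN Q.S (num X)) := rfl
      have hr : r ≤ Q.G * Q.E := by
        show r ≤ (r / e' + 1) * e'
        have := Nat.div_add_mod r e'
        have := Nat.mod_lt r he'
        have : (r / e' + 1) * e' = e' * (r / e') + e' := by ring
        omega
      have h5 : (Q.mach (fun _ => 1) (num X)).T Q.K (num X) = num (A.run w y (fun _ => []) Q.K X) :=
        T_fit (f₀ := fun _ => 1) (X := num X) (R₀ := fun _ => []) hCod (fun x _ _ => rfl) hr Q.K X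
          hfit
      rw [h4, hcap, h5]
      have h6 : accN (num (A.run w y (fun _ => []) Q.K X)) = 1 := (accN_num _).2 hacc.2
      rw [h6]
      exact one_ne_zero

/-- **Average-case hardness for parallel machines with adaptive reads.** -/
theorem par_main (P : Sim) (c : ℕ) :
    ∃ (L : Set (List Bool)) (s : ℕ → List Bool), DLINSPACE L ∧
      (∀ n, (s n).length = n) ∧
      (∀ w, w ∈ L ↔ Odd ((List.zipWith and (s w.length) w).count true)) ∧
      ∀ (A : PAR) (C : ℝ), ∃ c' : ℝ, ∀ (n : ℕ) (α : List Bool), ∀ M, M = L ∨ M = Lᶜ →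
        ({w : List Bool | w.length = n ∧
          (Alt true (c * n) (fun v => ∃ d X, A.AcceptsAt w (α ++ v) d X) → w ∈ M) ∧
          (w ∈ M → Alt true (c * n) fun v => A.Within C w (α ++ v))}.ncard : ℝ) ≤
          2 ^ n / 2 + c' * ((min α.length (n - α.length) : ℕ) + 1) *
            2 ^ (((n : ℝ) + α.length) / 2) := by
  obtain ⟨L, s, h1, h2, h3, h4⟩ := Pool.Agent.Helper78.Gen2.alt_main (accB P) NB (LS.accB P)
    LS.NB c
  refine ⟨L, s, h1, h2, h3, fun A C => ?_⟩
  have h := h4 (fun w y => ∃ d X, A.AcceptsAt w y d X) (A.Within C) (exists_good P A C)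
  simp only [Pool.Agent.Helper28.Few.alt_iff] at h
  exact h

/-- Languages accepted by parallel machines with adaptive reads within the bounds are in linear
space. -/
theorem par_lin (P : Sim) (c : ℕ) (A : PAR) (L : Set (List Bool)) (C : ℝ)
    (h1 : ∀ w, Alt true (c * w.length) (fun v => ∃ d X, A.AcceptsAt w v d X) → w ∈ L)
    (h2 : ∀ w ∈ L, Alt true (c * w.length) (A.Within C w)) : DLINSPACE L :=
  Pool.Agent.Helper78.Gen2.alt_lin (accB P) NB (LS.accB P) LS.NB c L
    (fun w y => ∃ d X, A.AcceptsAt w y d X) (A.Within C) (exists_good P A C)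
    (fun w h => h1 w ((Pool.Agent.Helper28.Few.alt_iff _ _ _).1 h))
    (fun w hw => (Pool.Agent.Helper28.Few.alt_iff _ _ _).2 (h2 w hw))

end Pool.Agent.Helper92.RT
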