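import Pool.Agent.Helper92.RT.Defs
import Pool.Agent.Helper65.RT.Alg
import Pool.Agent.Helper11.Ram.MCOR
import Pool.Agent.Helper78.Mpc.MMain

/-!
# The machine on numbers of a parallel machine with adaptive reads

Words are coded by their numbers; `0` is the code of a failure (a word was too long, or the
processor made too many reads). The noted words of a processor are the digits of a number `Z` in
base `2 ^ (D + 1)`.
-/

namespace Pool.Agent.Helper92.RT

open Pool.Agent.Helper65.LinSpace Pool.Agent.Helper78.Mpc Pool.Agent.Helper28.Ram Finset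

/-- The codes of the functions of a machine. -/
structure Cde where
  eA : ℕ
  eL : ℕ
  eN : ℕ
  eO : ℕ
  ini : ℕ
  B0 : ℕ

/-- The codes of the functions of a machine, the input, and the bounds. -/
structure Prm extends Cde where
  Λ : ℕ
  β : ℕ
  B : ℕ
  x : ℕ
  y : ℕ
  /-- the length of names -/
  S : ℕ
  /-- the length of noted words -/
  D : ℕ
  /-- the length of contents -/
  V : ℕ
  /-- the length of states -/
  M : ℕ
  /-- the number of reads in a group -/
  E : ℕ
  /-- the number of groups -/
  G : ℕ
  /-- the number of phases -/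
  K : ℕ

/-- `1` if `x` is the name of a read-only register. -/
def ro (x : ℕ) : ℕ := lt01 1 x * (1 - x % 2)

/-- The index of the letters in the read-only register `x`. -/
def ix (x : ℕ) : ℕ := x / 2 - 2 ^ Nat.log 2 (x / 2)

namespace Prm

variable (P : Prm)

/-- The name of the register which is read in the state `z`. -/
def fA (z : ℕ) : ℕ := fnN P.eA P.S P.Λ P.β P.B z

/-- The word which is noted. -/
def fL (z v : ℕ) : ℕ := fnN P.eL P.D P.Λ P.β P.B (catN (sdN z) v)

/-- The next state. -/
def fN (z e : ℕ) : ℕ := fnN P.eN P.M P.Λ P.β P.B (catN (sdN z) e)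

/-- The result. -/
def fO (z : ℕ) : ℕ := fnN P.eO P.V P.Λ P.β P.B z

/-- The content of the read-only register `x`. -/
def inp (x : ℕ) : ℕ := capN P.V (dig P.B0 P.ini (3 * letN P.x (ix x) + letN P.y (ix x)))

/-- The next state, or the same state if the processor has halted. -/
def stp (z e : ℕ) : ℕ := ifz (eq01 (P.fA z) 1) (capN P.M (P.fN z e)) z

/-- The state of the processor `x` after `i` reads. -/
def st (x i Z : ℕ) : ℕ := nrec (capN P.M x) (fun t z => P.stp z (dig (2 ^ (P.D + 1)) Z t)) i

/-- The word which is noted in the state `z`, the content of the register being `v`. -/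
def nt (z v : ℕ) : ℕ := ifz (lt01 1 (P.fA z)) 0 (capN P.D (P.fL z v))

/-- The result in the state `z`; `0` if the processor has not halted. -/
def rs (z : ℕ) : ℕ := ifz (eq01 (P.fA z) 1) 0 (capN P.V (P.fO z))

/-- The machine on numbers, `f x` being the content of the register `x` at the start; the root is
`X`. -/
def mach (f : ℕ → ℕ) (X : ℕ) : Pool.Agent.Helper65.RT.Mach where
  σ := P.S + 1
  a := P.D + 1
  b := P.V + 1
  E := P.E
  G := P.G
  K := P.K
  q x i Z := capN P.S (P.fA (P.st x i Z))
  g x i Z v := P.nt (P.st x i Z) v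
  o x Z := ifz (ro x) (P.rs (P.st x (P.G * P.E) Z)) (P.inp x)
  t0 x := ifz (ro x) (capN P.V (f x)) (P.inp x)
  root := capN P.S X

end Prm

/-- The numbers in `P` code the functions of the machine `A` and the input. -/
structure Cod (A : PAR) (w y : List Bool) (P : Prm) : Prop where
  hA : ∀ z : List Bool, z.length ≤ P.M →
    P.fA (num z) = if (A.addr z).length ≤ P.S then num (A.addr z) else 0
  hL : ∀ z v : List Bool, z.length ≤ P.M → v.length ≤ P.V →
    P.fL (num z) (num v) = if (A.look (sd z ++ v)).length ≤ P.D then num (A.look (sd z ++ v)) else 0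
  hN : ∀ z e : List Bool, z.length ≤ P.M → e.length ≤ P.D →
    P.fN (num z) (num e) = if (A.next (sd z ++ e)).length ≤ P.M then num (A.next (sd z ++ e)) else 0
  hO : ∀ z : List Bool, z.length ≤ P.M →
    P.fO (num z) = if (A.out z).length ≤ P.V then num (A.out z) else 0
  hini : ∀ a b, dig P.B0 P.ini (3 * codeO a + codeO b) = num (A.init a b)
  hx : P.x = num w
  hy : P.y = num y

section

variable {P : Prm}

theorem capN_zero' (S : ℕ) : capN S 0 = 0 := Pool.Agent.Helper11.Ram.capN_zero S

theorem catN_zero_right (z : ℕ) : catN z 0 = 0 := by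
  by_contra h
  exact (catN_eq_zero h).2 rfl

theorem catN_zero_left' (e : ℕ) : catN 0 e = 0 := by
  by_contra h
  exact (catN_eq_zero h).1 rfl

theorem sdN_zero' : sdN 0 = 0 := Pool.Agent.Helper11.Ram.sdN_zero

theorem fL_zero_right (z : ℕ) : P.fL z 0 = 0 := by
  unfold Prm.fL
  rw [catN_zero_right, fnN_zero]

theorem fN_zero_right (z : ℕ) : P.fN z 0 = 0 := by
  unfold Prm.fN
  rw [catN_zero_right, fnN_zero]

theorem fN_zero_left (e : ℕ) : P.fN 0 e = 0 := by
  unfold Prm.fN
  rw [sdN_zero', catN_zero_left', fnN_zero]

theorem fA_zero : P.fA 0 = 0 := by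
  unfold Prm.fA
  rw [fnN_zero]

end

end Pool.Agent.Helper92.RT
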