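import Pool.Agent.Helper92.RT.Fam
import Pool.Agent.Helper28.Long.Main

/-!
# The parameters of the simulation of parallel machines with adaptive reads
-/

set_option exponentiation.threshold 50000

namespace Pool.Agent.Helper92.RT

open Pool.Agent.Helper65.LinSpace Pool.Agent.Helper78.Mpc Pool.Agent.Helper28.Ram Finset Filter
open Pool.Agent.Helper65.RT (qT CT Par LSM Sim)
open Pool.Agent.Helper28.Long (ZL)

/-! ### The parameters -/

/-- `1` if the bounds are admissible. -/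
def good (n K E G S D V M : ℕ) : ℕ :=
  le01 (G * ((D + 1) * E) + E * (V + 1)) (4 * qT n) * (le01 (K * (G + 2)) (4 * qT n) *
    (le01 ((K + 1) * (S + 1)) (4 * qT n) * (le01 ((K + 1) * ((S + 1) * E)) (4 * (n + 1)) *
      (le01 (S + D + V + M) (ZL n) * (lt01 0 E * lt01 0 G)))))

theorem le01_ne {x y : ℕ} (h : le01 x y ≠ 0) : x ≤ y := by
  unfold le01 at h
  by_contra hc
  rw [if_neg hc] at h
  exact h rfl

theorem lt01_ne {x y : ℕ} (h : lt01 x y ≠ 0) : x < y := by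
  unfold lt01 at h
  by_contra hc
  rw [if_neg hc] at h
  exact h rfl

theorem good_ne {n K E G S D V M : ℕ} (h : good n K E G S D V M ≠ 0) :
    G * ((D + 1) * E) + E * (V + 1) ≤ 4 * qT n ∧ K * (G + 2) ≤ 4 * qT n ∧
      (K + 1) * (S + 1) ≤ 4 * qT n ∧ (K + 1) * ((S + 1) * E) ≤ 4 * (n + 1) ∧
      S + D + V + M ≤ ZL n ∧ 0 < E ∧ 0 < G := by
  unfold good at h
  exact ⟨le01_ne (left_ne_zero_of_mul h), le01_ne (left_ne_zero_of_mul (right_ne_zero_of_mul h)),
    le01_ne (left_ne_zero_of_mul (right_ne_zero_of_mul (right_ne_zero_of_mul h))),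
    le01_ne (left_ne_zero_of_mul (right_ne_zero_of_mul (right_ne_zero_of_mul
      (right_ne_zero_of_mul h)))),
    le01_ne (left_ne_zero_of_mul (right_ne_zero_of_mul (right_ne_zero_of_mul
      (right_ne_zero_of_mul (right_ne_zero_of_mul h))))),
    lt01_ne (left_ne_zero_of_mul (right_ne_zero_of_mul (right_ne_zero_of_mul
      (right_ne_zero_of_mul (right_ne_zero_of_mul (right_ne_zero_of_mul h)))))),
    lt01_ne (right_ne_zero_of_mul (right_ne_zero_of_mul (right_ne_zero_of_mul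
      (right_ne_zero_of_mul (right_ne_zero_of_mul (right_ne_zero_of_mul h))))))⟩

theorem good_of {n K E G S D V M : ℕ} (h1 : G * ((D + 1) * E) + E * (V + 1) ≤ 4 * qT n)
    (h2 : K * (G + 2) ≤ 4 * qT n) (h3 : (K + 1) * (S + 1) ≤ 4 * qT n)
    (h4 : (K + 1) * ((S + 1) * E) ≤ 4 * (n + 1)) (h5 : S + D + V + M ≤ ZL n) (h6 : 0 < E)
    (h7 : 0 < G) :
    good n K E G S D V M ≠ 0 := by
  unfold good le01 lt01
  rw [if_pos h1, if_pos h2, if_pos h3, if_pos h4, if_pos h5, if_pos h6, if_pos h7]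
  norm_num

/-- The parameters. -/
def prm0 (c : Cde) (x y K E G S D V M : ℕ) : Prm where
  toCde := c
  Λ := LW (Nat.log 2 x)
  β := 2 ^ (2 * ll (Nat.log 2 x))
  B := CT x
  x := x
  y := y
  S := S
  D := D
  V := V
  M := M
  E := E
  G := G
  K := K

/-- The parameters, with admissible bounds. -/
def prm (c : Cde) (x y K E G S D V M : ℕ) : Prm :=
  prm0 c x y (ifz (good (Nat.log 2 x) K E G S D V M) 0 K)
    (ifz (good (Nat.log 2 x) K E G S D V M) 1 E) (ifz (good (Nat.log 2 x) K E G S D V M) 1 G)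
    (ifz (good (Nat.log 2 x) K E G S D V M) 0 S) (ifz (good (Nat.log 2 x) K E G S D V M) 0 D)
    (ifz (good (Nat.log 2 x) K E G S D V M) 0 V) (ifz (good (Nat.log 2 x) K E G S D V M) 0 M)

theorem qT_pos (n : ℕ) : 1 ≤ qT n := Nat.succ_pos _

theorem qT_le (n : ℕ) : qT n ≤ n + 1 := by
  unfold qT
  have := Nat.div_le_self n (ll n)
  omega

theorem two_pow_CT {x k : ℕ} (h : k ≤ 100 * (Nat.log 2 x + 1)) : 2 ^ k ≤ CT x := by
  calc 2 ^ k ≤ 2 ^ (100 * (Nat.log 2 x + 1)) := Nat.pow_le_pow_right (by norm_num) h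
    _ ≤ (x + 2) ^ (2 * 100) := two_pow_log_le x 100
    _ ≤ CT x := Nat.pow_le_pow_right (by omega) (by norm_num)

/-- Admissible bounds are not changed. -/
theorem prm_good (c : Cde) {x y K E G S D V M : ℕ} (h : good (Nat.log 2 x) K E G S D V M ≠ 0) :
    prm c x y K E G S D V M = prm0 c x y K E G S D V M := by
  unfold prm
  simp only [ifz_ne h]

/-- Otherwise the bounds are trivial. -/
theorem prm_bad (c : Cde) {x y K E G S D V M : ℕ} (h : good (Nat.log 2 x) K E G S D V M = 0) :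
    prm c x y K E G S D V M = prm0 c x y 0 1 1 0 0 0 0 := by
  unfold prm
  simp only [h, ifz_zero]

/-- All that is needed about the parameters. -/
theorem prm_spec (c : Cde) (x y K E G S D V M : ℕ) :
    (∀ (f : ℕ → ℕ) (X : ℕ), Par (Nat.log 2 x) ((prm c x y K E G S D V M).mach f X)) ∧
      0 < (prm c x y K E G S D V M).E ∧ 0 < (prm c x y K E G S D V M).G ∧
      (prm c x y K E G S D V M).S + (prm c x y K E G S D V M).D + (prm c x y K E G S D V M).V +
        (prm c x y K E G S D V M).M ≤ ZL (Nat.log 2 x) := by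
  have hq := qT_pos (Nat.log 2 x)
  by_cases h : good (Nat.log 2 x) K E G S D V M = 0
  · rw [prm_bad c h]
    refine ⟨fun f X => ⟨?_, ?_, ?_, ?_⟩, Nat.one_pos, Nat.one_pos, Nat.zero_le _⟩
    · show 1 * ((0 + 1) * 1) + 1 * (0 + 1) ≤ _
      omega
    · show 0 * (1 + 2) ≤ _
      omega
    · show (0 + 1) * (0 + 1) ≤ _
      omega
    · show (0 + 1) * ((0 + 1) * 1) ≤ _
      omega
  · obtain ⟨h1, h2, h3, h4, h5, h6, h7⟩ := good_ne h
    rw [prm_good c h]
    exact ⟨fun f X => ⟨h1, h2, h3, h4⟩, h6, h7, h5⟩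

/-- All words are short. -/
theorem prm_pow (c : Cde) (x y K E G S D V M : ℕ) :
    2 ^ ((prm c x y K E G S D V M).S + 1) ≤ CT x ∧ 2 ^ ((prm c x y K E G S D V M).D + 1) ≤ CT x ∧
    2 ^ ((prm c x y K E G S D V M).V + 1) ≤ CT x ∧ 2 ^ ((prm c x y K E G S D V M).M + 1) ≤ CT x := by
  obtain ⟨hp, h5, h6, h7⟩ := prm_spec c x y K E G S D V M
  obtain ⟨h1, h2, h3, h4⟩ := hp (fun _ => 0) 0
  set P := prm c x y K E G S D V M with hP
  have hq := qT_le (Nat.log 2 x)
  have hZ : ZL (Nat.log 2 x) ≤ Nat.log 2 x := Pool.Agent.Helper28.Long.ZL_le _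
  have h1' : P.G * ((P.D + 1) * P.E) + P.E * (P.V + 1) ≤ 4 * qT (Nat.log 2 x) := h1
  have h3' : (P.K + 1) * (P.S + 1) ≤ 4 * qT (Nat.log 2 x) := h3
  have a1 : P.S + 1 ≤ (P.K + 1) * (P.S + 1) := Nat.le_mul_of_pos_left _ (by omega)
  have a2 : P.D + 1 ≤ P.G * ((P.D + 1) * P.E) :=
    (Nat.le_mul_of_pos_right _ h5).trans (Nat.le_mul_of_pos_left _ h6)
  have a3 : P.V + 1 ≤ P.E * (P.V + 1) := Nat.le_mul_of_pos_left _ h5
  refine ⟨two_pow_CT ?_, two_pow_CT ?_, two_pow_CT ?_, two_pow_CT ?_⟩ <;> omega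

section

variable {α : Type} [Ctx α]

theorem ls_qT {n : α → ℕ} (hn : LS n) : LS (fun z => qT (n z)) := by
  unfold qT
  fun_prop

theorem ls_CT {x : α → ℕ} (hx : LS x) : LS (fun z => CT (x z)) := by
  unfold CT
  exact (LS.add hx (LS.const 2)).pow_const 4000

theorem ls_good {n K E G S D V M : α → ℕ} (hn : LS n) (hK : LS K) (hE : LS E) (hG : LS G)
    (hS : LS S) (hD : LS D) (hV : LS V) (hM : LS M) :
    LS (fun z => good (n z) (K z) (E z) (G z) (S z) (D z) (V z) (M z)) := by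
  unfold good
  have hq := ls_qT hn
  have hZ := Pool.Agent.Helper28.Long.LS.ZL hn
  fun_prop

theorem lsp_prm {eA eL eN eO ini B0 x y K E G S D V M : α → ℕ} (heA : LS eA) (heL : LS eL)
    (heN : LS eN) (heO : LS eO) (hini : LS ini) (hB0 : LS B0) (hx : LS x) (hy : LS y) (hK : LS K)
    (hE : LS E) (hG : LS G) (hS : LS S) (hD : LS D) (hV : LS V) (hM : LS M) :
    LSP (fun z => prm ⟨eA z, eL z, eN z, eO z, ini z, B0 z⟩ (x z) (y z) (K z) (E z) (G z) (S z)
      (D z) (V z) (M z)) (fun z => CT (x z)) := by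
  have hn : LS (fun z => Nat.log 2 (x z)) := LS.log2 hx
  have hg := ls_good hn hK hE hG hS hD hV hM
  have hC := ls_CT hx
  have hb : ∀ z, (2 ^ (2 * ll (Nat.log 2 (x z)))) ^ LW (Nat.log 2 (x z)) ≤ CT (x z) := by
    intro z
    refine (beta_pow_le (x z)).trans ?_
    unfold CM CT
    exact Nat.pow_le_pow_right (by omega) (by norm_num)
  have hl : ∀ z, 2 ^ (2 * ll (Nat.log 2 (x z))) ≤ CT (x z) := by
    intro z
    refine two_pow_CT ?_
    have := ll_le (Nat.log 2 (x z))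
    omega
  refine ⟨heA, heL, heN, heO, hini, hB0, LS.LW hn,
    LS.pow_of_le (f := fun _ => 2) (g := fun z => 2 * ll (Nat.log 2 (x z))) (by fun_prop)
      (by fun_prop) hC hl, hC, hx, hy, LS.ifz hg (LS.const 0) hS, LS.ifz hg (LS.const 0) hD,
    LS.ifz hg (LS.const 0) hV, LS.ifz hg (LS.const 0) hM, LS.ifz hg (LS.const 1) hE,
    LS.ifz hg (LS.const 1) hG, LS.ifz hg (LS.const 0) hK, hC, fun z => ?_, hb,
    fun z => (prm_pow _ _ _ _ _ _ _ _ _ _).1, fun z => (prm_pow _ _ _ _ _ _ _ _ _ _).2.1,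
    fun z => (prm_pow _ _ _ _ _ _ _ _ _ _).2.2.1, fun z => (prm_pow _ _ _ _ _ _ _ _ _ _).2.2.2⟩
  show 0 < 2 ^ (2 * ll (Nat.log 2 (x z)))
  positivity

end

/-! ### The codes of the bounds -/

/-- The functions of the machine with the code `e`. -/
def cde (e : ℕ) : Cde :=
  ⟨(Nat.unpair e).1, (Nat.unpair (Nat.unpair e).2).1, (Nat.unpair (Nat.unpair (Nat.unpair e).2).2).1,
    (Nat.unpair (Nat.unpair (Nat.unpair (Nat.unpair e).2).2).2).1,
    (Nat.unpair (Nat.unpair (Nat.unpair (Nat.unpair (Nat.unpair e).2).2).2).2).1,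
    (Nat.unpair (Nat.unpair (Nat.unpair (Nat.unpair (Nat.unpair e).2).2).2).2).2⟩

theorem exists_cde (c : Cde) : ∃ e, cde e = c :=
  ⟨Nat.pair c.eA (Nat.pair c.eL (Nat.pair c.eN (Nat.pair c.eO (Nat.pair c.ini c.B0)))), by
    unfold cde
    simp only [Nat.unpair_pair]⟩

/-- The base of the codes of bounds. -/
def bs (x : ℕ) : ℕ := 4 * (Nat.log 2 x + 2)

/-- The machine with the code `e` on the inputs with the numbers `x` and `y`, with the bounds coded
by `T`. -/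
def prT (e x y T : ℕ) : Prm :=
  prm (cde e) x y (dig (bs x) T 0) (dig (bs x) T 1) (dig (bs x) T 2) (dig (bs x) T 3)
    (dig (bs x) T 4) (dig (bs x) T 5) (dig (bs x) T 6)

section

variable {α : Type} [Ctx α]

theorem ls_bs {x : α → ℕ} (hx : LS x) : LS (fun z => bs (x z)) := by
  unfold bs
  fun_prop

theorem lsp_prT {e x y T : α → ℕ} (he : LS e) (hx : LS x) (hy : LS y) (hT : LS T) :
    LSP (fun z => prT (e z) (x z) (y z) (T z)) (fun z => CT (x z)) := by
  have hb := ls_bs hx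
  unfold prT cde
  exact lsp_prm (by fun_prop) (by fun_prop) (by fun_prop) (by fun_prop) (by fun_prop)
    (by fun_prop) (by fun_prop) (by fun_prop) (by fun_prop) (by fun_prop) (by fun_prop)
    (by fun_prop) (by fun_prop) (by fun_prop) (by fun_prop)

end

/-! ### The bounds -/

theorem ev_mul_le (C : ℝ) (k : ℕ) : ∀ᶠ n : ℕ in atTop, ∀ v : ℕ,
    (v : ℝ) * ((Nat.log 2 n : ℝ) + 1) ≤ C * ((n : ℝ) + 1) → k * v ≤ n := by
  obtain ⟨j, hj⟩ := exists_nat_gt (2 * |C| * k)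
  filter_upwards [ev_ll_ge j, eventually_ge_atTop 1] with n hn h1 v hv
  have hl : ((ll n : ℕ) : ℝ) = (Nat.log 2 n : ℝ) + 1 := by
    unfold ll
    push_cast
    ring
  rw [← hl] at hv
  have hl0 : (0 : ℝ) < ll n := by exact_mod_cast ll_pos n
  have hjl : (j : ℝ) ≤ ll n := by exact_mod_cast hn
  have hn1 : (1 : ℝ) ≤ n := by exact_mod_cast h1
  have h2 : (v : ℝ) * ll n ≤ 2 * |C| * n := by
    refine hv.trans ?_
    have h3 : C * ((n : ℝ) + 1) ≤ |C| * (2 * n) :=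
      mul_le_mul (le_abs_self C) (by linarith) (by positivity) (abs_nonneg C)
    linarith
  have h4 : ((k : ℝ) * v) * ll n ≤ (n : ℝ) * ll n := by
    calc ((k : ℝ) * v) * ll n = k * ((v : ℝ) * ll n) := by ring
      _ ≤ k * (2 * |C| * n) := mul_le_mul_of_nonneg_left h2 (Nat.cast_nonneg _)
      _ = (2 * |C| * k) * n := by ring
      _ ≤ j * n := mul_le_mul_of_nonneg_right hj.le (by linarith)
      _ ≤ ll n * n := mul_le_mul_of_nonneg_right hjl (by linarith)
      _ = (n : ℝ) * ll n := by ring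
  have h5 : (k : ℝ) * v ≤ n := le_of_mul_le_mul_right h4 hl0
  exact_mod_cast h5

theorem ev_mul_LW (C : ℝ) (k : ℕ) : ∀ᶠ n : ℕ in atTop, ∀ v : ℕ,
    (v : ℝ) * ((Nat.log 2 n : ℝ) + 1) ^ 2 ≤ C * ((n : ℝ) + 1) → k * v ≤ LW n := by
  filter_upwards [ev_mul_le C k] with n hn v hv
  have hl : ((ll n : ℕ) : ℝ) = (Nat.log 2 n : ℝ) + 1 := by
    unfold ll
    push_cast
    ring
  have h1 := hn (v * ll n) (by
    push_cast
    rw [hl]
    calc (v : ℝ) * ((Nat.log 2 n : ℝ) + 1) * ((Nat.log 2 n : ℝ) + 1) =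
        (v : ℝ) * ((Nat.log 2 n : ℝ) + 1) ^ 2 := by ring
      _ ≤ _ := hv)
  unfold LW
  rw [Nat.le_div_iff_mul_le (ll_pos n)]
  calc k * v * ll n = k * (v * ll n) := by ring
    _ ≤ n := h1

theorem ev_mul_ZL (C : ℝ) (k : ℕ) : ∀ᶠ n : ℕ in atTop, ∀ v : ℕ,
    (v : ℝ) * ((Nat.log 2 n : ℝ) + 1) ^ 2 ≤ C * ((n : ℝ) + 1) → k * v ≤ ZL n := by
  filter_upwards [Pool.Agent.Helper28.Long.le_ZL (k * C)] with n hn v hv
  refine hn _ ?_
  have hL : (0 : ℝ) < ((Nat.log 2 n : ℝ) + 1) ^ 2 := by positivity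
  rw [le_div_iff₀ hL]
  push_cast
  calc (k : ℝ) * v * ((Nat.log 2 n : ℝ) + 1) ^ 2 = k * (v * ((Nat.log 2 n : ℝ) + 1) ^ 2) := by ring
    _ ≤ k * (C * ((n : ℝ) + 1)) := mul_le_mul_of_nonneg_left hv (Nat.cast_nonneg _)
    _ = k * C * ((n : ℝ) + 1) := by ring

/-- There is enough memory for the functions of the machine. -/
theorem ev_cod (c : ℕ) : ∀ᶠ n : ℕ in atTop, ∀ v ≤ ZL n,
    c * (4 * v + 4) ≤ LW n ∧ c + LW n + 4 * v + 4 ≤ 2 ^ (2 * ll n) := by
  filter_upwards [Pool.Agent.Helper28.Long.ev_lll_ge (8 * c), ev_ll_ge (32 * c + 4),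
    eventually_ge_atTop (c + 64)] with n h1 h2 hnc v hv
  have hZ := Pool.Agent.Helper28.Long.ZL_le n
  have hLW : LW n ≤ n := Nat.div_le_self _ _
  constructor
  · have g1 : v * (8 * c) ≤ LW n := by
      calc v * (8 * c) ≤ ZL n * ll (ll n) := Nat.mul_le_mul hv h1
        _ ≤ LW n := Nat.div_mul_le_self _ _
    have g2 : 8 * c ≤ LW n := by
      unfold LW
      rw [Nat.le_div_iff_mul_le (ll_pos n)]
      have h3 := ll_sq_le n
      have h4 : ll n * (32 * c + 4) ≤ 4 * (n + 1) := (Nat.mul_le_mul_left _ h2).trans h3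
      have h5 : ll n * (32 * c + 4) = 4 * (8 * c * ll n) + 4 * ll n := by ring
      have h6 := ll_pos n
      omega
    have g3 : c * (4 * v + 4) = 4 * (v * c) + 4 * c := by ring
    have g4 : v * (8 * c) = 8 * (v * c) := by ring
    omega
  · have hl2 := lt_two_pow_ll n
    have u1 : (n + 1) * (n + 1) ≤ 2 ^ (2 * ll n) := by
      rw [two_mul, pow_add]
      exact Nat.mul_le_mul hl2 hl2
    refine le_trans ?_ u1
    have u2 : 64 * (n + 1) ≤ (n + 1) * (n + 1) := Nat.mul_le_mul_right _ (by omega)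
    omega

/-- The bounds of the theorem are admissible. -/
theorem ev_good (C : ℝ) : ∀ᶠ n : ℕ in atTop, ∀ d r s a b m e : ℕ, 0 < d → 0 < s → 0 < a →
    0 < e →
    (d : ℝ) * (((e : ℝ) + ((Nat.log 2 n : ℝ) + 1)) * s +
        (r : ℝ) * ((Nat.log 2 n : ℝ) + 1) / e) * ((Nat.log 2 n : ℝ) + 1) ≤ C * ((n : ℝ) + 1) →
    ((e : ℝ) * ((a : ℝ) + b) + (r : ℝ) * a + m) * ((Nat.log 2 n : ℝ) + 1) ^ 2 ≤
      C * ((n : ℝ) + 1) →
    good n d e (r / e + 1) s a b m ≠ 0 ∧ d < 4 * (n + 2) ∧ e < 4 * (n + 2) ∧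
      r / e + 1 < 4 * (n + 2) ∧ s < 4 * (n + 2) ∧ a < 4 * (n + 2) ∧ b < 4 * (n + 2) ∧
      m < 4 * (n + 2) := by
  filter_upwards [ev_mul_le C 4, ev_mul_LW C 16, ev_mul_ZL C 2] with n h1 h2 h3
    d r s a b m e hd hs ha he hA hB
  set L : ℝ := (Nat.log 2 n : ℝ) + 1 with hL
  have hL0 : (0 : ℝ) ≤ L := by positivity
  have hL1 : (1 : ℝ) ≤ L := by
    have : (0 : ℝ) ≤ (Nat.log 2 n : ℝ) := Nat.cast_nonneg _
    linarith
  have hd0 : (0 : ℝ) ≤ d := Nat.cast_nonneg _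
  have he0 : (0 : ℝ) < e := by exact_mod_cast he
  have hs0 : (0 : ℝ) ≤ s := Nat.cast_nonneg _
  have hr0 : (0 : ℝ) ≤ r := Nat.cast_nonneg _
  -- the parts of the first bound
  have p1 : ((d * (e * s) : ℕ) : ℝ) * L ≤ C * ((n : ℝ) + 1) := by
    refine le_trans ?_ hA
    refine mul_le_mul_of_nonneg_right ?_ hL0
    push_cast
    refine mul_le_mul_of_nonneg_left ?_ hd0
    have q1 : (0 : ℝ) ≤ L * s := by positivity
    have q2 : (0 : ℝ) ≤ r * L / e := by positivity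
    have q3 : ((e : ℝ) + L) * s = e * s + L * s := by ring
    linarith
  have p2 : ((d * s : ℕ) : ℝ) * L ^ 2 ≤ C * ((n : ℝ) + 1) := by
    refine le_trans ?_ hA
    have q0 : ((d * s : ℕ) : ℝ) * L ^ 2 = (d : ℝ) * (L * s) * L := by
      push_cast
      ring
    rw [q0]
    refine mul_le_mul_of_nonneg_right (mul_le_mul_of_nonneg_left ?_ hd0) hL0
    have q1 : (0 : ℝ) ≤ e * s := by positivity
    have q2 : (0 : ℝ) ≤ r * L / e := by positivity
    have q3 : ((e : ℝ) + L) * s = e * s + L * s := by ring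
    linarith
  have p3 : ((d * (r / e) : ℕ) : ℝ) * L ^ 2 ≤ C * ((n : ℝ) + 1) := by
    refine le_trans ?_ hA
    have q0 : ((d * (r / e) : ℕ) : ℝ) * L ^ 2 = (d : ℝ) * (((r / e : ℕ) : ℝ) * L) * L := by
      push_cast
      ring
    rw [q0]
    refine mul_le_mul_of_nonneg_right (mul_le_mul_of_nonneg_left ?_ hd0) hL0
    have q1 : (0 : ℝ) ≤ ((e : ℝ) + L) * s := by positivity
    have q2 : ((r / e : ℕ) : ℝ) ≤ (r : ℝ) / e := Nat.cast_div_le
    have q3 : ((r / e : ℕ) : ℝ) * L ≤ (r : ℝ) / e * L := mul_le_mul_of_nonneg_right q2 hL0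
    have q4 : (r : ℝ) / e * L = r * L / e := by ring
    linarith
  have p4 : ((e * (a + b) + r * a + m : ℕ) : ℝ) * L ^ 2 ≤ C * ((n : ℝ) + 1) := by
    refine le_trans (le_of_eq ?_) hB
    push_cast
    ring
  have g1 := h1 _ p1
  have g2 := h2 _ p2
  have g3 := h2 _ p3
  have g4 := h2 _ p4
  have z2 := h3 _ p2
  have z4 := h3 _ p4
  have hLW : LW n ≤ n := Nat.div_le_self _ _
  have hq : LW n < qT n := Nat.lt_succ_self _
  have hds : d ≤ d * s := Nat.le_mul_of_pos_right _ hs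
  have hsd : s ≤ d * s := Nat.le_mul_of_pos_left _ hd
  have hab : a + b ≤ e * (a + b) := Nat.le_mul_of_pos_left _ he
  have hre : e * (r / e) ≤ r := Nat.mul_div_le r e
  have hde : r / e ≤ d * (r / e) := Nat.le_mul_of_pos_left _ hd
  have hea : e ≤ e * (a + b) := Nat.le_mul_of_pos_right _ (by omega)
  -- the numbers
  have t1 : (r / e + 1) * ((a + 1) * e) + e * (b + 1) ≤ 4 * qT n := by
    have u1 : (r / e + 1) * ((a + 1) * e) = (a + 1) * (e * (r / e)) + (a + 1) * e := by ring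
    have u2 : (a + 1) * (e * (r / e)) ≤ (2 * a) * r := Nat.mul_le_mul (by omega) hre
    have u3 : (a + 1) * e ≤ (2 * a) * e := Nat.mul_le_mul_right _ (by omega)
    have u4 : (2 * a) * r = 2 * (r * a) := by ring
    have u5 : (2 * a) * e = 2 * (e * a) := by ring
    have u6 : e * (b + 1) ≤ e * (a + b) := Nat.mul_le_mul_left _ (by omega)
    have u7 : e * (a + b) = e * a + e * b := by ring
    omega
  have t2 : d * (r / e + 1 + 2) ≤ 4 * qT n := by
    have u1 : d * (r / e + 1 + 2) = d * (r / e) + 3 * d := by ring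
    omega
  have t3 : (d + 1) * (s + 1) ≤ 4 * qT n := by
    have u1 : (d + 1) * (s + 1) ≤ (2 * d) * (2 * s) := Nat.mul_le_mul (by omega) (by omega)
    have u2 : (2 * d) * (2 * s) = 4 * (d * s) := by ring
    omega
  have t4 : (d + 1) * ((s + 1) * e) ≤ 4 * (n + 1) := by
    have u1 : (d + 1) * ((s + 1) * e) ≤ (2 * d) * ((2 * s) * e) :=
      Nat.mul_le_mul (by omega) (Nat.mul_le_mul_right _ (by omega))
    have u2 : (2 * d) * ((2 * s) * e) = 4 * (d * (e * s)) := by ring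
    omega
  have t5 : s + a + b + m ≤ ZL n := by omega
  have hZ := Pool.Agent.Helper28.Long.ZL_le n
  refine ⟨good_of t1 t2 t3 t4 t5 he (Nat.succ_pos _), ?_, ?_, ?_, ?_, ?_, ?_, ?_⟩ <;> omega

end Pool.Agent.Helper92.RT
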